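import Pool.Agent.P8H30.OR.Hol
import Pool.Agent.N174.OC.Trans

/-!
# Central idempotents and equivalence of idempotents
-/

set_option autoImplicit false
set_option linter.unusedSectionVars false

open scoped ComplexConjugate
open Module Pool.Agent.W539.DI Pool.Agent.R941.OH Pool.Agent.R929.DH Pool.Agent.P8H56.DH

namespace Pool.Agent.P8H30.OR

section central

variable {E : Type} [Ring E] [Algebra ℚ E] [FiniteDimensional ℚ E] [IsSemisimpleRing E]

/-- Two-sided ideals are generated by central idempotents. -/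
theorem exists_central (J : Ideal E) (hJ : ∀ a ∈ J, ∀ b : E, a * b ∈ J) :
    ∃ e : E, e * e = e ∧ (∀ b, e * b = b * e) ∧ 1 - e ∈ J ∧ ∀ x ∈ J, e * x = 0 := by
  obtain ⟨f, hf, hspan⟩ := IsSemisimpleRing.ideal_eq_span_idempotent J
  have hfJ : f ∈ J := hspan ▸ Ideal.mem_span_singleton_self f
  have hJf : ∀ x ∈ J, x * f = x := by
    intro x hx
    rw [hspan, Ideal.mem_span_singleton'] at hx
    obtain ⟨a, rfl⟩ := hx
    rw [mul_assoc, hf]
  have h1 : ∀ x : E, f * x * (1 - f) = 0 := by
    intro x
    rw [mul_sub, mul_one, hJf _ (hJ f hfJ x), sub_self]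
  have h2 : ∀ x : E, (1 - f) * x * f = 0 := by
    intro x
    obtain ⟨y, hy⟩ := Pool.Agent.N174.OC.exists_regular ((1 - f) * x * f)
    rw [← hy]
    have : (1 - f) * x * f * y * ((1 - f) * x * f) =
        (1 - f) * x * (f * y * (1 - f)) * x * f := by simp only [mul_assoc]
    rw [this, h1, mul_zero, zero_mul, zero_mul]
  have hcen : ∀ x : E, f * x = x * f := by
    intro x
    have h3 := h1 x
    have h4 := h2 x
    rw [mul_sub, mul_one, sub_eq_zero] at h3
    rw [sub_mul, one_mul, sub_mul, sub_eq_zero] at h4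
    rw [h3, h4]
  refine ⟨1 - f, ?_, ?_, ?_, ?_⟩
  · rw [sub_mul, one_mul, mul_sub, mul_one, hf, sub_self, sub_zero]
  · intro b
    rw [sub_mul, mul_sub, one_mul, mul_one, hcen]
  · rw [sub_sub_cancel]
    exact hfJ
  · intro x hx
    rw [sub_mul, one_mul, hcen, hJf x hx, sub_self]

/-- A right ideal given by a kernel inside the image of an idempotent is generated by an idempotent
which splits off. -/
theorem exists_kernel {p c : E} (hp : p * p = p) :
    ∃ κ : E, κ * κ = κ ∧ p * κ = κ ∧ κ * p = κ ∧ c * κ = 0 ∧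
      (∀ x : E, p * x = x → c * x = 0 → κ * x = x) ∧ ∃ d : E, p - κ = d * (c * p) := by
  obtain ⟨x, hx⟩ := Pool.Agent.N174.OC.exists_regular (c * p)
  -- `π = p x c p` is an idempotent with the same kernel as `c` on the image of `p`
  set π : E := p * x * (c * p) with hπ
  have e2 : p * π = π := by
    rw [hπ]
    calc p * (p * x * (c * p)) = (p * p) * x * (c * p) := by simp only [mul_assoc]
      _ = _ := by rw [hp]
  have e3 : π * p = π := by
    rw [hπ]
    calc p * x * (c * p) * p = p * x * (c * (p * p)) := by simp only [mul_assoc]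
      _ = _ := by rw [hp]
  have e4 : c * π = c * p := by
    calc c * π = c * p * x * (c * p) := by rw [hπ]; simp only [mul_assoc]
      _ = _ := hx
  have e1 : π * π = π := by
    calc π * π = p * x * (c * p) * π := by rw [← hπ]
      _ = p * x * (c * (p * π)) := by simp only [mul_assoc]
      _ = p * x * (c * p) := by rw [e2, e4]
      _ = π := hπ.symm
  refine ⟨p - π, ?_, ?_, ?_, ?_, ?_, p * x, sub_sub_cancel p π⟩
  · rw [sub_mul, mul_sub, mul_sub, hp, e1, e2, e3, sub_self, sub_zero]
  · rw [mul_sub, hp, e2]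
  · rw [sub_mul, hp, e3]
  · rw [mul_sub, e4, sub_self]
  · intro y hy hc
    rw [sub_mul, hy, hπ, mul_assoc, mul_assoc c, hy, hc, mul_zero, sub_zero]

end central

end Pool.Agent.P8H30.OR
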