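import Pool.Agent.P8H30.OR.One

/-!
# Classes of defect at most two: all the multiplicities
-/

set_option autoImplicit false
set_option linter.unusedSectionVars false

open scoped ComplexConjugate
open Module Pool.Agent.W539.DI Pool.Agent.R941.OH Pool.Agent.R929.DH Pool.Agent.P8H56.DH

namespace Pool.Agent.P8H30.OR

/-- Symmetric sums. -/
theorem sum_refl {M N : ℕ} (hMN : 2 * M + 1 ≤ N) (f : ℕ → ℕ) (D : ℕ → Prop) [DecidablePred D]
    (h0 : ∀ j, 2 * M < j → f j = 0) (hs : ∀ j, j ≤ 2 * M → f (2 * M - j) = f j)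
    (hD : ∀ j, j ≤ 2 * M → (D (2 * M - j) ↔ D j)) (hM : ¬ D M) :
    ∑ j ∈ (Finset.range N).filter D, f j = 2 * ∑ j ∈ (Finset.range M).filter D, f j := by
  have e1 : ∑ j ∈ (Finset.range N).filter D, f j =
      ∑ j ∈ (Finset.range (M + (M + 1))).filter D, f j := by
    symm
    refine Finset.sum_subset ?_ ?_
    · intro j hj
      rw [Finset.mem_filter, Finset.mem_range] at *
      exact ⟨by omega, hj.2⟩
    · intro j hj hj2
      rw [Finset.mem_filter, Finset.mem_range] at *
      exact h0 j (by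
        by_contra hcon
        exact hj2 ⟨by omega, hj.2⟩)
  rw [e1, Finset.sum_filter, Finset.sum_filter, Finset.sum_range_add, Finset.sum_range_succ',
    add_zero, if_neg hM, add_zero, two_mul]
  congr 1
  rw [← Finset.sum_range_reflect]
  refine Finset.sum_congr rfl fun i hi => ?_
  rw [Finset.mem_range] at hi
  have e2 : 2 * M - i = M + (M - 1 - i + 1) := by omega
  have h1 := hs i (by omega)
  have h2 := hD i (by omega)
  rw [e2] at h1 h2
  by_cases h3 : D i
  · rw [if_pos h3, if_pos (h2.2 h3), h1]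
  · rw [if_neg h3, if_neg fun h => h3 (h2.1 h)]

variable {E : Type} [Ring E] [Algebra ℚ E] [FiniteDimensional ℚ E] {n : ℕ} {X Y : KRing n}

theorem PP_bot (A : Act E X) {L : X.R} {N : E} (hA : A.ρ N = mu X L) (hX : DefectTwo X L)
    (S : Submodule E E) {m k : ℕ} (hk : m + k + 3 ≤ n) : PP S A.L N m k = ⊥ := by
  rw [eq_bot_iff]
  intro x hx
  rw [Submodule.mem_bot]
  obtain ⟨h1, h2⟩ := (mem_PP S _ _ _ _ _).1 hx
  refine Subtype.ext (A.zero_of_typ fun p q h hh => ?_)
  have hz := A.typ_mem' (x : E) hh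
  have h3 : L ^ (n - 2 - (m + 1) + 1) * A.ρ (x : E) h = 0 := by
    have h4 : L ^ (k + 1) * A.ρ (x : E) h = 0 := by
      rw [← rho_pow A hA, ← rho_mul, h2, map_zero]
      rfl
    have e : n - 2 - (m + 1) + 1 = (n - 2 - (m + 1) - k) + (k + 1) := by omega
    rw [e, pow_add, mul_assoc, h4, mul_zero]
  have h5 := low_zero hX (m := m + 1) (k := n - 2 - (m + 1)) (by omega) hz h3 (j := m) (by omega)
  rwa [← A.rho_p, ← rho_mul, h1] at h5

/-- The rank of `N ^ κ` on the odd part. -/
theorem rk_odd (A : Act E X) {L : X.R} {N : E} (hA : A.ρ N = mu X L) (hX : DefectTwo X L)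
    (S : Submodule E E) {κ M : ℕ} (hM : M + 1 + κ = n) :
    rk S (N ^ κ * par A.L (n + κ + 1)) + (if κ = 0 then 0 else 2 * finrank ℚ (PP S A.L N M (κ - 1))) =
      2 * ∑ j ∈ (Finset.range (M + 1)).filter (fun j => (j + (n + κ + 1)) % 2 = 0),
        rk S (A.L.p j) := by
  unfold par Lef.pD
  rw [rk_sum S A.L (fun j => Npow_p A hA hX.mem κ j)]
  rw [sum_refl (M := M + 1) (by omega) (fun j => rk S (N ^ κ * A.L.p j))
    (fun j => (j + (n + κ + 1)) % 2 = 0)
    (fun j hj => by
      have : N ^ κ * A.L.p j = 0 := by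
        rw [Npow_p A hA hX.mem, p_big' A.L (by omega), zero_mul]
      simp only [this, rk_zero])
    (fun j hj => rk_dual_pow A hA S hX.mem hX.real (by omega))
    (fun j hj => by omega) (by omega)]
  have hlow : ∀ j, j + κ + 2 ≤ n → rk S (N ^ κ * A.L.p j) = rk S (A.L.p j) := by
    intro j hj
    rcases Nat.eq_zero_or_pos κ with h0 | h0
    · rw [h0, pow_zero, one_mul]
    · have h1 := finrank_PP S A.L N j (κ - 1)
      rw [PP_bot A hA hX S (by omega), finrank_bot, add_zero, Nat.sub_add_cancel h0] at h1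
      exact h1
  have htop : rk S (N ^ κ * A.L.p M) + (if κ = 0 then 0 else finrank ℚ (PP S A.L N M (κ - 1))) =
      rk S (A.L.p M) := by
    split_ifs with h0
    · rw [h0, pow_zero, one_mul, add_zero]
    · have h1 := finrank_PP S A.L N M (κ - 1)
      rwa [Nat.sub_add_cancel (by omega)] at h1
  have hfil : (Finset.range (M + 1)).filter (fun j => (j + (n + κ + 1)) % 2 = 0) =
      insert M ((Finset.range M).filter (fun j => (j + (n + κ + 1)) % 2 = 0)) := by
    rw [Finset.range_add_one, Finset.filter_insert, if_pos (by omega)]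
  rw [hfil, Finset.sum_insert (by simp), Finset.sum_insert (by simp)]
  have hsum : ∑ j ∈ (Finset.range M).filter (fun j => (j + (n + κ + 1)) % 2 = 0),
      rk S (N ^ κ * A.L.p j) =
      ∑ j ∈ (Finset.range M).filter (fun j => (j + (n + κ + 1)) % 2 = 0), rk S (A.L.p j) := by
    refine Finset.sum_congr rfl fun j hj => hlow j ?_
    rw [Finset.mem_filter, Finset.mem_range] at hj
    omega
  rw [hsum, ← htop]
  split_ifs
  · ring
  · ring

theorem symmPhi {A : Act E X} {B : Act E Y} {Φ : FM X Y}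
    (hΦ : ∀ a x, Φ.φ (A.ρ a x) = B.ρ a (Φ.φ x)) :
    ∀ a y, (Pool.Agent.R929.DH.symm Φ).φ (B.ρ a y) = A.ρ a ((Pool.Agent.R929.DH.symm Φ).φ y) := by
  intro a y
  show Φ.φ.symm (B.ρ a y) = A.ρ a (Φ.φ.symm y)
  apply Φ.φ.injective
  rw [LinearEquiv.apply_symm_apply, hΦ, LinearEquiv.apply_symm_apply]

theorem all_two (A : Act E X) (B : Act E Y) (Φ : FM X Y)
    (hΦ : ∀ a x, Φ.φ (A.ρ a x) = B.ρ a (Φ.φ x)) {L : X.R} {L' : Y.R} {N : E}
    (hA : A.ρ N = mu X L) (hB : B.ρ N = mu Y L') (hc : Intertwines Φ X.c Y.c)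
    (hX : DefectTwo X L) (hY : DefectTwo Y L') (S : Submodule E E) (j : ℕ) :
    rk S (A.L.p j) = rk S (B.L.p j) := by
  have hPP : ∀ m k : ℕ, m + k + 2 = n →
      finrank ℚ (PP S A.L N m k) = finrank ℚ (PP S B.L N m k) := fun m k hk =>
    le_antisymm (ineq_two A B Φ hΦ hA hB hc hX hY S hk)
      (ineq_two B A (Pool.Agent.R929.DH.symm Φ) (symmPhi hΦ) hB hA hc.symm hY hX S hk)
  have hσ : ∀ M : ℕ, M + 1 ≤ n →
      ∑ j ∈ (Finset.range (M + 1)).filter (fun j => (j + M) % 2 = 0), rk S (A.L.p j) =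
      ∑ j ∈ (Finset.range (M + 1)).filter (fun j => (j + M) % 2 = 0), rk S (B.L.p j) := by
    intro M hM
    have h1 := rk_odd A hA hX S (κ := n - M - 1) (M := M) (by omega)
    have h2 := rk_odd B hB hY S (κ := n - M - 1) (M := M) (by omega)
    have hf : (Finset.range (M + 1)).filter (fun j => (j + (n + (n - M - 1) + 1)) % 2 = 0) =
        (Finset.range (M + 1)).filter (fun j => (j + M) % 2 = 0) := by
      refine Finset.filter_congr fun j _ => ?_
      omega
    rw [hf] at h1 h2
    rw [par_eq A B Φ hΦ] at h1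
    by_cases h0 : n - M - 1 = 0
    · rw [if_pos h0] at h1 h2
      omega
    · rw [if_neg h0] at h1 h2
      rw [hPP M (n - M - 1 - 1) (by omega)] at h1
      omega
  have hlow : ∀ j, j < n → rk S (A.L.p j) = rk S (B.L.p j) := by
    intro j
    induction j using Nat.strong_induction_on with
    | _ j ih =>
      intro hj
      have h1 := hσ j (by omega)
      have hfil : (Finset.range (j + 1)).filter (fun i => (i + j) % 2 = 0) =
          insert j ((Finset.range j).filter (fun i => (i + j) % 2 = 0)) := by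
        rw [Finset.range_add_one, Finset.filter_insert, if_pos (by omega)]
      rw [hfil, Finset.sum_insert (by simp), Finset.sum_insert (by simp)] at h1
      have h2 : ∑ i ∈ (Finset.range j).filter (fun i => (i + j) % 2 = 0), rk S (A.L.p i) =
          ∑ i ∈ (Finset.range j).filter (fun i => (i + j) % 2 = 0), rk S (B.L.p i) := by
        refine Finset.sum_congr rfl fun i hi => ?_
        rw [Finset.mem_filter, Finset.mem_range] at hi
        exact ih i hi.1 (by omega)
      omega
  have hall : ∀ j, j ≠ n → j ≤ 2 * n → rk S (A.L.p j) = rk S (B.L.p j) := by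
    intro j h1 h2
    rcases Nat.lt_or_ge j n with h3 | h3
    · exact hlow j h3
    · rw [rk_sym' A S (j := j) (j' := 2 * n - j) (by omega),
        rk_sym' B S (j := j) (j' := 2 * n - j) (by omega)]
      exact hlow _ (by omega)
  rcases Nat.lt_or_ge (2 * n) j with h | h
  · rw [p_big' A.L h, p_big' B.L h]
  by_cases hjn : j = n
  · have h1 : rk S (par A.L n) = rk S (par B.L n) := by rw [par_eq A B Φ hΦ]
    have h2 : ∀ (Z : KRing n) (C : Act E Z), rk S (par C.L n) =
        ∑ j ∈ (Finset.range (2 * n + 1)).filter (fun j => (j + n) % 2 = 0), rk S (C.L.p j) := by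
      intro Z C
      have := rk_sum S C.L (M := 1) (s := 0) (fun j => by simp)
        ((Finset.range (2 * n + 1)).filter (fun j => (j + n) % 2 = 0))
      simpa [par, Lef.pD] using this
    rw [h2 X A, h2 Y B] at h1
    have hmem : n ∈ (Finset.range (2 * n + 1)).filter (fun j => (j + n) % 2 = 0) := by
      rw [Finset.mem_filter, Finset.mem_range]
      omega
    rw [← Finset.add_sum_erase _ _ hmem, ← Finset.add_sum_erase _ (fun j => rk S (B.L.p j)) hmem]
      at h1
    have h3 : ∑ i ∈ ((Finset.range (2 * n + 1)).filter (fun j => (j + n) % 2 = 0)).erase n,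
        rk S (A.L.p i) =
        ∑ i ∈ ((Finset.range (2 * n + 1)).filter (fun j => (j + n) % 2 = 0)).erase n,
          rk S (B.L.p i) := by
      refine Finset.sum_congr rfl fun i hi => ?_
      rw [Finset.mem_erase, Finset.mem_filter, Finset.mem_range] at hi
      exact hall i hi.1 (by omega)
    rw [hjn]
    omega
  · exact hall j hjn h

end Pool.Agent.P8H30.OR
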