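import Pool.Agent.P8H30.OR.Cen

/-!
# Equivalence of the parts of the motives with holomorphic forms
-/

set_option autoImplicit false
set_option linter.unusedSectionVars false

open scoped ComplexConjugate
open Module Pool.Agent.W539.DI Pool.Agent.R941.OH Pool.Agent.R929.DH Pool.Agent.P8H56.DH

namespace Pool.Agent.P8H30.OR

section central

variable {E : Type} [Ring E] [Algebra ℚ E] [FiniteDimensional ℚ E]

/-- The part of a left ideal given by a central idempotent. -/
theorem rk_central (S : Submodule E E) {e : E} (he : e * e = e) (hc : ∀ b, e * b = b * e) :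
    ∃ S' : Submodule E E, (∀ x ∈ S', e * x = x) ∧ ∀ a : E, rk S' a = rk S (e * a) := by
  refine ⟨S.map (LinearMap.toSpanSingleton E E e), ?_, ?_⟩
  · rintro _ ⟨x, -, rfl⟩
    show e * (x * e) = x * e
    rw [← hc, ← mul_assoc, he]
  · intro a
    have hle : S.map (LinearMap.toSpanSingleton E E e) ≤ S := by
      rintro _ ⟨x, hx, rfl⟩
      show x * e ∈ S
      rw [← hc]
      exact S.smul_mem e hx
    let i : S.map (LinearMap.toSpanSingleton E E e) →ₗ[ℚ] S :=
      { toFun := fun x => ⟨x, hle x.2⟩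
        map_add' := fun _ _ => rfl
        map_smul' := fun _ _ => rfl }
    have hi : Function.Injective i := fun x y hxy => by
      have h := congrArg (fun z : S => (z : E)) hxy
      exact Subtype.ext h
    have h1 : LinearMap.range (op S (e * a)) =
        (LinearMap.range (op (S.map (LinearMap.toSpanSingleton E E e)) a)).map i := by
      apply le_antisymm
      · rintro _ ⟨x, rfl⟩
        refine ⟨op _ a ⟨(x : E) * e, ⟨x, x.2, rfl⟩⟩, ⟨_, rfl⟩, ?_⟩
        apply Subtype.ext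
        show a * ((x : E) * e) = e * a * (x : E)
        rw [← mul_assoc, ← hc, mul_assoc]
      · rintro _ ⟨_, ⟨⟨_, ⟨x, hx, rfl⟩⟩, rfl⟩, rfl⟩
        refine ⟨⟨x, hx⟩, ?_⟩
        apply Subtype.ext
        show e * a * x = a * (x * e)
        rw [← mul_assoc, ← hc, mul_assoc]
    unfold rk
    rw [h1]
    exact (Submodule.equivMapOfInjective i hi _).finrank_eq

end central

section main

variable {E : Type} [Ring E] [Algebra ℚ E] [FiniteDimensional ℚ E] [IsSemisimpleRing E] {n : ℕ}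
  {X Y : KRing n}

/-- The central idempotent which belongs to the holomorphic `p`-forms. -/
theorem hol_central (A : Act E X) (p : ℤ) :
    ∃ e : E, e * e = e ∧ (∀ b, e * b = b * e) ∧ (∀ h ∈ typ X p 0, A.ρ e h = h) ∧
      ∀ x : E, (∀ h ∈ typ X p 0, A.ρ x h = 0) → e * x = 0 := by
  let J : Ideal E :=
    { carrier := {a | ∀ h ∈ typ X p 0, A.ρ a h = 0}
      add_mem' := fun {a b} ha hb h hh => by
        rw [map_add, LinearMap.add_apply, ha h hh, hb h hh, add_zero]
      zero_mem' := fun h _ => by rw [map_zero]; rfl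
      smul_mem' := fun c a ha h hh => by
        rw [smul_eq_mul, rho_mul, ha h hh, map_zero] }
  obtain ⟨e, h1, h2, h3, h4⟩ := exists_central J (fun a ha b h hh => by
    rw [rho_mul]
    exact ha _ (A.typ_mem' b hh))
  refine ⟨e, h1, h2, fun h hh => ?_, fun x hx => h4 x hx⟩
  have h5 := h3 h hh
  rw [map_sub, map_one, LinearMap.sub_apply, sub_eq_zero] at h5
  exact h5.symm

variable (A : Act E X) (B : Act E Y) (Φ : FM X Y) (hΦ : ∀ a x, Φ.φ (A.ρ a x) = B.ρ a (Φ.φ x))

include hΦ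

theorem onto_typ {a b : ℤ} {y : Y.R} (hy : y ∈ typ Y a b) : ∃ x ∈ typ X a b, Φ.φ x = y := by
  have h := Φ.hodge a b
  have hy' : y ∈ ⨆ k : ℤ, Y.H (a + k, b + k) := hy
  rw [← h] at hy'
  obtain ⟨x, hx, rfl⟩ := hy'
  exact ⟨x, hx, rfl⟩

theorem hol_rank {L : X.R} {L' : Y.R} {N : E} (hA : A.ρ N = mu X L) (hB : B.ρ N = mu Y L')
    (hc : Intertwines Φ X.c Y.c) (hX : Semipositive X L) (hY : Semipositive Y L') {p k : ℕ}
    (hk : p + k + 2 = n) {e : E} (he : e * e = e) (hec : ∀ b, e * b = b * e)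
    (he0 : ∀ x : E, (∀ h ∈ typ X p 0, A.ρ x h = 0) → e * x = 0) (S : Submodule E E) :
    rk S (e * (N ^ k * A.L.p p)) = rk S (e * (N ^ k * B.L.p p)) := by
  obtain ⟨S', h1, h2⟩ := rk_central S he hec
  rw [← h2, ← h2]
  have hSX : ∀ x : S', (∀ h ∈ typ X p 0, A.ρ (x : E) h = 0) → (x : E) = 0 := by
    intro x hx
    rw [← h1 x x.2]
    exact he0 x hx
  refine le_antisymm (ineq_hol A B Φ hΦ hA hB hc hX hY S' hk hSX)
    (ineq_hol B A (Pool.Agent.R929.DH.symm Φ) (symmPhi hΦ) hB hA hc.symm hY hX S' hk ?_)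
  intro x hx
  refine hSX x fun h hh => ?_
  apply Φ.φ.injective
  rw [hΦ, hx _ (mem_typ_phi Φ hh), map_zero]

/-- The holomorphic forms modulo those killed by `L ^ k`. -/
theorem hol_equiv {L : X.R} {L' : Y.R} {N : E} (hA : A.ρ N = mu X L) (hB : B.ρ N = mu Y L')
    (hc : Intertwines Φ X.c Y.c) (hX : Semipositive X L) (hY : Semipositive Y L') {p k : ℕ}
    (hk : p + k + 2 = n) : ∃ a b : E, A.L.p p * a = a ∧ B.L.p p * b = b ∧
      (∀ x ∈ X.H ((p : ℤ), 0), L ^ k * A.ρ (a * b) x = L ^ k * x) ∧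
      (∀ y ∈ Y.H ((p : ℤ), 0), L' ^ k * B.ρ (b * a) y = L' ^ k * y) ∧
      (∀ x ∈ killed X L k p, A.ρ b x = 0) ∧ ∀ y ∈ killed Y L' k p, B.ρ a y = 0 := by
  obtain ⟨e, he, hec, heh, he0⟩ := hol_central A (p : ℤ)
  obtain ⟨κ, c1, c2, c3, c4, c5, c, c6⟩ := exists_kernel (c := N ^ k) (A.L.p_self p)
  obtain ⟨κ', d1, d2, d3, d4, d5, d, d6⟩ := exists_kernel (c := N ^ k) (B.L.p_self p)
  have idem : ∀ {q κ : E}, q * q = q → κ * κ = κ → q * κ = κ → κ * q = κ →
      (e * (q - κ)) * (e * (q - κ)) = e * (q - κ) := by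
    intro q κ h1 h2 h3 h4
    have h5 : (q - κ) * (q - κ) = q - κ := by
      rw [sub_mul, mul_sub, mul_sub, h1, h2, h3, h4, sub_self, sub_zero]
    calc e * (q - κ) * (e * (q - κ)) = e * ((q - κ) * e) * (q - κ) := by simp only [mul_assoc]
      _ = (e * e) * ((q - κ) * (q - κ)) := by rw [← hec]; simp only [mul_assoc]
      _ = _ := by rw [he, h5]
  have hi := idem (A.L.p_self p) c1 c2 c3
  have hj := idem (B.L.p_self p) d1 d2 d3
  have hrk : ∀ {q κ : E} (S : Submodule E E), q * q = q → κ * κ = κ → q * κ = κ → κ * q = κ →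
      N ^ k * κ = 0 → (∀ x : E, q * x = x → N ^ k * x = 0 → κ * x = x) →
      rk S (e * (N ^ k * q)) = rk S (e * (q - κ)) := by
    intro q κ S h1 h2 h3 h4 h5 h6
    have e1 : e * (N ^ k * q) = N ^ k * (e * (q - κ)) := by
      have e2 : N ^ k * (e * (q - κ)) = e * (N ^ k * (q - κ)) := by
        rw [← mul_assoc, ← hec, mul_assoc]
      rw [e2, mul_sub, h5, sub_zero]
    rw [e1]
    refine rk_mul_of_inj S fun x hx => ?_
    have h7 : q * (e * (q - κ) * (x : E)) = e * (q - κ) * (x : E) := by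
      rw [← mul_assoc, ← mul_assoc, ← hec, mul_assoc e, mul_sub, h1, h3]
    have h8 := h6 _ h7 hx
    rw [← h8, ← mul_assoc, ← mul_assoc, ← hec, mul_assoc e, mul_sub, h4, h2, sub_self, mul_zero,
      zero_mul]
  obtain ⟨a, b, hab, hba⟩ := idem_equiv (E := E) hi hj fun S => by
    rw [tS_rk S hi, tS_rk S hj, ← hrk S (A.L.p_self p) c1 c2 c3 c4 c5,
      ← hrk S (B.L.p_self p) d1 d2 d3 d4 d5,
      hol_rank A B Φ hΦ hA hB hc hX hY hk he hec he0 S]
  have hpe : A.L.p p * (e * (A.L.p p - κ)) = e * (A.L.p p - κ) := by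
    rw [← mul_assoc, ← hec, mul_assoc, mul_sub, A.L.p_self, c2]
  have hpe' : B.L.p p * (e * (B.L.p p - κ')) = e * (B.L.p p - κ') := by
    rw [← mul_assoc, ← hec, mul_assoc, mul_sub, B.L.p_self, d2]
  refine ⟨a * b * a, b * a * b, ?_, ?_, ?_, ?_, ?_, ?_⟩
  · rw [hab, ← mul_assoc, hpe]
  · rw [hba, ← mul_assoc, hpe']
  · intro x hx
    have e1 : a * b * a * (b * a * b) = e * (A.L.p p - κ) := by
      calc a * b * a * (b * a * b) = (a * b) * ((a * b) * (a * b)) := by simp only [mul_assoc]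
        _ = _ := by rw [hab, hi, hi]
    rw [e1, rho_mul, heh _ (A.typ_mem' _ (mem_typ X hx)), map_sub, LinearMap.sub_apply, A.rho_p,
      dg_of X hx, if_pos (by ring), mul_sub, ← rho_pow A hA k (A.ρ κ x), ← rho_mul, c4, map_zero,
      LinearMap.zero_apply, sub_zero]
  · intro y hy
    have e1 : b * a * b * (a * b * a) = e * (B.L.p p - κ') := by
      calc b * a * b * (a * b * a) = (b * a) * ((b * a) * (b * a)) := by simp only [mul_assoc]
        _ = _ := by rw [hba, hj, hj]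
    have heh' : ∀ h ∈ typ Y p 0, B.ρ e h = h := by
      intro h hh
      obtain ⟨x, hx, rfl⟩ := onto_typ A B Φ hΦ hh
      rw [← hΦ, heh x hx]
    rw [e1, rho_mul, heh' _ (B.typ_mem' _ (mem_typ Y hy)), map_sub, LinearMap.sub_apply, B.rho_p,
      dg_of Y hy, if_pos (by ring), mul_sub, ← rho_pow B hB k (B.ρ κ' y), ← rho_mul, d4, map_zero,
      LinearMap.zero_apply, sub_zero]
  · intro x hx
    obtain ⟨hx1, hx2⟩ := mem_killed.1 hx
    have e1 : b * a * b = b * (e * (c * (N ^ k * A.L.p p))) := by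
      rw [mul_assoc, hab, c6]
    have e2 : A.ρ (A.L.p p) x = x := by rw [A.rho_p, dg_of X hx1, if_pos (by ring)]
    rw [e1, rho_mul, rho_mul, rho_mul, rho_mul, e2, rho_pow A hA, hx2, map_zero, map_zero,
      map_zero]
  · intro y hy
    obtain ⟨hy1, hy2⟩ := mem_killed.1 hy
    have e1 : a * b * a = a * (e * (d * (N ^ k * B.L.p p))) := by
      rw [mul_assoc, hba, d6]
    have e2 : B.ρ (B.L.p p) y = y := by rw [B.rho_p, dg_of Y hy1, if_pos (by ring)]
    rw [e1, rho_mul, rho_mul, rho_mul, rho_mul, e2, rho_pow B hB, hy2, map_zero, map_zero,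
      map_zero]

end main

end Pool.Agent.P8H30.OR
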