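import Pool.Agent.P8H30.OR.Rk
import Pool.Agent.P8H56.DH.Fin

/-!
# The form of a class of type (1, 1) on classes of few degrees
-/

set_option autoImplicit false
set_option linter.unusedSectionVars false

open scoped ComplexConjugate
open Module Pool.Agent.W539.DI Pool.Agent.R941.OH Pool.Agent.R929.DH Pool.Agent.P8H56.DH

namespace Pool.Agent.P8H30.OR

variable {n : ℕ} {X : KRing n} {L : X.R}

theorem hf_F (hb : X.bar L = L) (k : ℕ) (x y : X.R) : hf X L k x y = F X x (L ^ k * y) := by
  unfold hf F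
  rw [bar_pow hb]

theorem F_mul (hm : L ∈ X.H (1, 1)) (hb : X.bar L = L) (x y : X.R) :
    F X (L * x) y = -F X x (L * y) := by
  unfold F
  rw [dual_mul hm, X.bar_mul, hb, ← mul_assoc (X.dual x), ← X.central hm (X.dual x), neg_mul,
    map_neg]

theorem F_pow (hm : L ∈ X.H (1, 1)) (hb : X.bar L = L) (j : ℕ) (x y : X.R) :
    F X (L ^ j * x) y = (-1) ^ j * F X x (L ^ j * y) := by
  induction j generalizing x y with
  | zero => simp
  | succ j ih =>
    rw [pow_succ, mul_assoc, ih, F_mul hm hb, ← mul_assoc L, ← pow_succ', ← pow_succ]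
    ring

theorem om_swap (hm : L ∈ X.H (1, 1)) (k : ℕ) (x : X.R) :
    L ^ k * (X.ω * x) = X.ω * (L ^ k * x) := by
  rw [← mul_assoc, ← mul_assoc, pow_central hm]

theorem hf_om (hm : L ∈ X.H (1, 1)) (hb : X.bar L = L) (k : ℕ) (x y : X.R) :
    hf X L k (X.ω * x) y = -hf X L k x (X.ω * y) := by
  rw [hf_F hb, hf_F hb, F_mul X.ω_mem X.ω_bar, om_swap hm]

theorem dg_pow (hm : L ∈ X.H (1, 1)) (k i : ℕ) (y : X.R) :
    dg X (i + 2 * k) (L ^ k * y) = L ^ k * dg X i y := by
  induction k generalizing y with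
  | zero => simp
  | succ k ih =>
    have h1 : dg X (i + 2 * (k + 1)) (L * (L ^ k * y)) = L * dg X (i + 2 * k) (L ^ k * y) :=
      (congrArg (fun g : Module.End ℂ X.R => g (L ^ k * y)) (dg_mu X hm (i + 2 * k))).symm
    rw [pow_succ', mul_assoc, h1, ih, mul_assoc]

theorem dg_low (hm : L ∈ X.H (1, 1)) {k j : ℕ} (hj : j < 2 * k) (y : X.R) :
    dg X j (L ^ k * y) = 0 := by
  refine X.ind (P := fun y => dg X j (L ^ k * y) = 0) ?_ ?_ ?_ y
  · simp
  · intro x y hx hy
    rw [mul_add, map_add, hx, hy, add_zero]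
  · intro p q x hx
    by_cases h : p < 0 ∨ q < 0
    · rw [zero_of X (by omega) hx, mul_zero, map_zero]
    · rw [dg_of X (X.pow_mul_mem hm k hx), if_neg (by omega)]

theorem dg_sum_apply (z : X.R) : ∑ i ∈ Finset.range (2 * n + 1), dg X i z = z := by
  have h := congrArg (fun g : Module.End ℂ X.R => g z) (dg_sum X)
  rwa [LinearMap.sum_apply] at h

theorem hf_dg (hm : L ∈ X.H (1, 1)) (hb : X.bar L = L) {k i j : ℕ} (hij : i + j + 2 * k = 2 * n)
    (x y : X.R) : hf X L k (dg X i x) y = hf X L k (dg X i x) (dg X j y) := by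
  rw [hf_F hb, hf_F hb, F_dg i (by omega) x (L ^ k * y), F_dg i (by omega) x (L ^ k * dg X j y),
    show 2 * n - i = j + 2 * k by omega, dg_pow hm, dg_pow hm, ← Module.End.mul_apply (dg X j),
    dg_dg, if_pos rfl]

theorem hf_dg_zero (hm : L ∈ X.H (1, 1)) (hb : X.bar L = L) {k i : ℕ} (hi : i ≤ 2 * n)
    (hik : 2 * n < i + 2 * k) (x y : X.R) : hf X L k (dg X i x) y = 0 := by
  rw [hf_F hb, F_dg _ hi, dg_low hm (by omega), F_zero_right]

theorem hf_zero_left' (k : ℕ) (y : X.R) : hf X L k 0 y = 0 := by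
  have := hf_smul_left (X := X) (w := L) (k := k) 0 0 y
  simpa using this

theorem hf_zero_right' (k : ℕ) (y : X.R) : hf X L k y 0 = 0 := by
  have := hf_smul_right (X := X) (w := L) (k := k) 0 y 0
  simpa using this

/-- Only three degrees contribute. -/
theorem expand (hm : L ∈ X.H (1, 1)) (hb : X.bar L = L) {m k : ℕ} (hk : m + k + 2 = n) {z : X.R}
    (hlow : ∀ j, j < m → dg X j z = 0) (h1 : dg X (m + 1) z = 0) (h3 : dg X (m + 3) z = 0) :
    hf X L k z z = hf X L k (dg X m z) (dg X (m + 4) z) +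
      hf X L k (dg X (m + 2) z) (dg X (m + 2) z) + hf X L k (dg X (m + 4) z) (dg X m z) := by
  have e1 : hf X L k z z = ∑ i ∈ Finset.range (2 * n + 1), hf X L k (dg X i z) z := by
    have h : ∀ s : Finset ℕ, hf X L k (∑ i ∈ s, dg X i z) z = ∑ i ∈ s, hf X L k (dg X i z) z := by
      intro s
      classical
      induction s using Finset.induction_on with
      | empty => rw [Finset.sum_empty, Finset.sum_empty, hf_zero_left']
      | insert i s hi ih => rw [Finset.sum_insert hi, Finset.sum_insert hi, hf_add_left, ih]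
    rw [← h, dg_sum_apply]
  have e2 : ∑ i ∈ Finset.range (2 * n + 1), hf X L k (dg X i z) z =
      ∑ i ∈ ({m, m + 2, m + 4} : Finset ℕ), hf X L k (dg X i z) z := by
    symm
    refine Finset.sum_subset ?_ ?_
    · intro i hi
      simp only [Finset.mem_insert, Finset.mem_singleton] at hi
      rw [Finset.mem_range]
      omega
    · intro i hi hi2
      rw [Finset.mem_range] at hi
      simp only [Finset.mem_insert, Finset.mem_singleton, not_or] at hi2
      by_cases g1 : i < m
      · rw [hlow i g1, hf_zero_left']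
      by_cases g2 : i = m + 1
      · rw [g2, h1, hf_zero_left']
      by_cases g3 : i = m + 3
      · rw [g3, h3, hf_zero_left']
      by_cases g4 : 2 * n < i + 2 * k
      · exact hf_dg_zero hm hb (by omega) g4 z z
      · rw [hf_dg hm hb (j := 2 * n - i - 2 * k) (by omega), hlow (2 * n - i - 2 * k) (by omega), hf_zero_right']
  rw [e1, e2, Finset.sum_insert (by simp), Finset.sum_insert (by simp), Finset.sum_singleton,
    hf_dg hm hb (i := m) (j := m + 4) (by omega), hf_dg hm hb (i := m + 2) (j := m + 2) (by omega),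
    hf_dg hm hb (i := m + 4) (j := m) (by omega)]
  ring

/-- The quadratic form `x ↦ ∫ L ^ k ω ^ 2 x bar x`, up to the factor. -/
noncomputable def q2 (X : KRing n) (L : X.R) (k : ℕ) (x : X.R) : ℝ :=
  (hf X L k x (X.ω * (X.ω * x))).re

theorem om_mem' {p q : ℤ} {x : X.R} (hx : x ∈ X.H (p, q)) : X.ω * x ∈ X.H (p + 1, q + 1) := by
  have := X.mul_mem X.ω_mem hx
  rwa [add_comm 1 p, add_comm 1 q] at this

/-- The form on the subspace where it is negative. -/
theorem neg_side (hm : L ∈ X.H (1, 1)) (hb : X.bar L = L) {m k : ℕ} (hk : m + k + 2 = n) {p q : ℤ}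
    (hpq : p + q = m) {x y : X.R} (hx : x ∈ X.H (p, q)) (hy : y ∈ X.H (p, q)) :
    bf X L k ((x - X.ω * (X.ω * x)) + X.ω * y) ((x - X.ω * (X.ω * x)) + X.ω * y) =
      -(4 * q2 X L k x + 2 * q2 X L k y) := by
  have hx1 := om_mem' (om_mem' hx)
  have hy1 := om_mem' hy
  have hd : ∀ j : ℕ, dg X j ((x - X.ω * (X.ω * x)) + X.ω * y) =
      ((if j = m then x else 0) - (if j = m + 4 then X.ω * (X.ω * x) else 0)) +
        (if j = m + 2 then X.ω * y else 0) := by
    intro j
    rw [map_add, map_sub, dg_of X hx, dg_of X hx1, dg_of X hy1]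
    have i1 : (p + q = (j : ℤ)) ↔ (j = m) := by omega
    have i2 : (p + 1 + 1 + (q + 1 + 1) = (j : ℤ)) ↔ (j = m + 4) := by omega
    have i3 : (p + 1 + (q + 1) = (j : ℤ)) ↔ (j = m + 2) := by omega
    simp only [i1, i2, i3]
  rw [bf_self, expand hm hb hk (fun j hj => ?_) ?_ ?_, hd m, hd (m + 2), hd (m + 4)]
  · have n1 : ¬ (m = m + 4) := by omega
    have n2 : ¬ (m = m + 2) := by omega
    have n3 : ¬ (m + 2 = m) := by omega
    have n4 : ¬ (m + 2 = m + 4) := by omega
    have n5 : ¬ (m + 4 = m) := by omega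
    have n6 : ¬ (m + 4 = m + 2) := by omega
    simp only [if_true, n1, n2, n3, n4, n5, n6, if_false, sub_zero, add_zero, zero_add, zero_sub]
    have g1 : hf X L k x (-(X.ω * (X.ω * x))) = -hf X L k x (X.ω * (X.ω * x)) := by
      have := hf_smul_right (X := X) (w := L) (k := k) (-1) x (X.ω * (X.ω * x))
      simpa using this
    have g2 : hf X L k (-(X.ω * (X.ω * x))) x = -hf X L k x (X.ω * (X.ω * x)) := by
      have h2 := hf_smul_left (X := X) (w := L) (k := k) (-1) (X.ω * (X.ω * x)) x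
      rw [neg_one_smul] at h2
      rw [h2, hf_om hm hb, hf_om hm hb]
      ring
    rw [g1, g2, hf_om hm hb k y]
    unfold q2
    simp only [Complex.add_re, Complex.neg_re]
    ring
  · rw [hd, if_neg (by omega), if_neg (by omega), if_neg (by omega), sub_zero, add_zero]
  · rw [hd, if_neg (by omega), if_neg (by omega), if_neg (by omega), sub_zero, add_zero]
  · rw [hd, if_neg (by omega), if_neg (by omega), if_neg (by omega), sub_zero, add_zero]

/-- The form on the subspace where it is nonnegative. -/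
theorem pos_side (hm : L ∈ X.H (1, 1)) (hb : X.bar L = L) {m k : ℕ} (hk : m + k + 2 = n) {z : X.R}
    (hlow : ∀ j, j < m → dg X j z = 0) (h1 : dg X (m + 1) z = 0) (h3 : dg X (m + 3) z = 0)
    (w : X.R) (j : ℕ) (hw : L ^ k * dg X (m + 4) z =
      L ^ k * (X.ω * (X.ω * dg X m z)) + L ^ j * w) (hj : L ^ j * dg X m z = 0) :
    bf X L k z z = 4 * q2 X L k (dg X m z) + bf X L k (dg X (m + 2) z) (dg X (m + 2) z) := by
  have g1 : hf X L k (dg X m z) (dg X (m + 4) z) = hf X L k (dg X m z) (X.ω * (X.ω * dg X m z)) := by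
    have h0 : F X (L ^ j * dg X m z) w = 0 := by rw [hj, F_zero_left]
    rw [F_pow hm hb] at h0
    have h2 : F X (dg X m z) (L ^ j * w) = 0 :=
      (mul_eq_zero.mp h0).resolve_left (pow_ne_zero _ (by norm_num))
    rw [hf_F hb, hw, F_add_right, h2, add_zero, hf_F hb]
  have g2 : hf X L k (dg X (m + 4) z) (dg X m z) = hf X L k (dg X m z) (X.ω * (X.ω * dg X m z)) := by
    have e1 : hf X L k (dg X (m + 4) z) (dg X m z) =
        (-1) ^ k * F X (L ^ k * dg X (m + 4) z) (dg X m z) := by
      rw [F_pow hm hb, ← mul_assoc, ← mul_pow]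
      simp [hf_F hb]
    have e2 : F X (L ^ k * (X.ω * (X.ω * dg X m z))) (dg X m z) =
        (-1) ^ k * hf X L k (dg X m z) (X.ω * (X.ω * dg X m z)) := by
      rw [F_pow hm hb, ← hf_F hb, hf_om hm hb, hf_om hm hb, neg_neg]
    rw [e1, hw, F_add_left, e2, F_pow hm hb, hj, F_zero_right, mul_zero, add_zero, ← mul_assoc,
      ← mul_pow]
    simp
  rw [bf_self, bf_self, expand hm hb hk hlow h1 h3, g1, g2]
  unfold q2
  simp only [Complex.add_re]
  ring

/-- Classes of one type and one degree. -/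
theorem mem_of_typ {a b : ℤ} {z : X.R} (hz : z ∈ typ X a b) {m : ℕ} {p q : ℤ} (hpq : p + q = m)
    (hd : p - q = a - b) : dg X m z ∈ X.H (p, q) := by
  have hz' := hz
  unfold typ at hz'
  refine Submodule.iSup_induction (p := fun k : ℤ => X.H (a + k, b + k))
    (motive := fun z => dg X m z ∈ X.H (p, q)) hz' ?_ ?_ ?_
  · intro k x hx
    rw [dg_of X hx]
    split_ifs with h
    · have e : ((p, q) : ℤ × ℤ) = (a + k, b + k) := by ext <;> simp <;> omega
      rw [e]
      exact hx
    · exact Submodule.zero_mem _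
  · rw [map_zero]
    exact Submodule.zero_mem _
  · intro x y hx hy
    rw [map_add]
    exact Submodule.add_mem _ hx hy

/-- Classes of a type in a degree of the wrong parity. -/
theorem dg_typ_zero {a b : ℤ} {z : X.R} (hz : z ∈ typ X a b) {m : ℕ}
    (hm : ∀ k : ℤ, a + k + (b + k) ≠ m) : dg X m z = 0 := by
  have hz' := hz
  unfold typ at hz'
  refine Submodule.iSup_induction (p := fun k : ℤ => X.H (a + k, b + k))
    (motive := fun z => dg X m z = 0) hz' ?_ ?_ ?_
  · intro k x hx
    rw [dg_of X hx, if_neg (hm k)]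
  · rw [map_zero]
  · intro x y hx hy
    rw [map_add, hx, hy, add_zero]

end Pool.Agent.P8H30.OR
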