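import Pool.Agent.P8H30.OR.Sec

/-!
# The theorem
-/

open CategoryTheory

set_option autoImplicit false
set_option linter.unusedSectionVars false

universe u v

namespace Pool.Agent.P8H30.OR

open Module Pool.Agent.W539.DI Pool.Agent.R941.OH Pool.Agent.R929.DH Pool.Agent.P8H56.DH
  Pool.Agent.N174.OC

variable {𝒪 : Type u} [Category.{v} 𝒪] [Preadditive 𝒪] [Linear ℚ 𝒪] {n : ℕ}
  {X Y : 𝒪}

/-- The mixed class `v` on `X × Y` is the class of an equivalence which commutes with the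
multiplications by the first Chern classes and by the classes `L` and `L'`, and the multiplication
by `L` is an algebraic correspondence. -/
structure Commutes (T : CycTheory 𝒪 n) (v : X ⟶ Y) (L : (T.K X).R) (L' : (T.K Y).R) : Prop where
  chern : ∀ x, T.act v ((T.K X).c * x) = (T.K Y).c * T.act v x
  alg : ∃ ℓ : X ⟶ X, ∀ x, T.act ℓ x = L * x
  comm : ∀ x, T.act v (L * x) = L' * T.act v x

/-- There are correspondences which act as inverse isomorphisms between the spaces of the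
holomorphic `p`-forms killed by `L ^ k` and by `L' ^ k`. -/
def KilledIso (T : CycTheory 𝒪 n) (L : (T.K X).R) (L' : (T.K Y).R) (k : ℕ) (p : ℤ) : Prop :=
  ∃ (Z : X ⟶ Y) (Z' : Y ⟶ X),
    (∀ x ∈ killed (T.K X) L k p, T.act Z x ∈ killed (T.K Y) L' k p ∧
      T.act Z' (T.act Z x) = x) ∧
    ∀ y ∈ killed (T.K Y) L' k p, T.act Z' y ∈ killed (T.K X) L k p ∧ T.act Z (T.act Z' y) = y

/-- The correspondence `Z` acts as zero on the holomorphic `p`-forms killed by `L ^ k`. -/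
def ZeroOnKilled (T : CycTheory 𝒪 n) (L : (T.K X).R) (k : ℕ) (p : ℤ) (Z : X ⟶ Y) : Prop :=
  ∀ x ∈ killed (T.K X) L k p, T.act Z x = 0

/-- There are correspondences of degree zero which act as inverse isomorphisms between the spaces
of holomorphic `p`-forms of `X` and `Y`, modulo the forms killed by `L ^ k` and `L' ^ k`: they kill
the killed forms, and their compositions are the identity modulo killed forms. -/
def FormsIso (T : CycTheory 𝒪 n) (L : (T.K X).R) (L' : (T.K Y).R) (k p : ℕ) : Prop :=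
  ∃ Z ∈ T.gr X Y 0, ∃ Z' ∈ T.gr Y X 0,
    (∀ x ∈ (T.K X).H ((p : ℤ), 0), L ^ k * T.act Z' (T.act Z x) = L ^ k * x) ∧
    (∀ y ∈ (T.K Y).H ((p : ℤ), 0), L' ^ k * T.act Z (T.act Z' y) = L' ^ k * y) ∧
    ZeroOnKilled T L k p Z ∧ ZeroOnKilled T L' k p Z'

/-- The theorem of Lefschetz on the rational classes of type `(1, 1)` of `Z`: they are the images
of `1` under correspondences. -/
def Lefschetz (T : CycTheory 𝒪 n) (Z : 𝒪) : Prop :=
  ∀ x ∈ (T.K Z).H (1, 1), (T.r Z).IsRat x → ∃ Γ : Z ⟶ Z, T.act Γ 1 = x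

section lin

variable (T : CycTheory 𝒪 n) {v : X ⟶ Y} {w : Y ⟶ X} {L : (T.K X).R} {L' : (T.K Y).R}

theorem out (hBX : T.ConjB X) (h : T.IsDerivedPair v w) (hI : ∀ m, T.Iso X Y m) :
    T.HomIso X Y ∧ (T.HomNilpotent X ∨ T.HomNilpotent Y → T.ChowIso X Y) := by
  have h' := pair_lin T h
  have hB1 : T.lin.ConjB X := hBX
  have hB' := conjB_trans T.lin hB1 h'
  obtain ⟨Z, hZ, Z', hZ', h5, h6, h7⟩ := motive T.lin hB1 hB' hI h'
  refine ⟨⟨Z, hZ, Z', hZ', fun x => ?_, fun y => ?_⟩, fun hK => ⟨Z, hZ, h7 ?_⟩⟩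
  · rw [← T.act_comp]
    exact congrArg (fun f : (T.K X).R →ₗ[ℂ] (T.K X).R => f x) h5
  · rw [← T.act_comp]
    exact congrArg (fun f : (T.K Y).R →ₗ[ℂ] (T.K Y).R => f y) h6
  · exact hK.imp (nil_lin T) (nil_lin T)

theorem finrank_killed {k : ℕ} {p : ℤ} (hK : KilledIso T L L' k p) :
    finrank ℂ (killed (T.K X) L k p) = finrank ℂ (killed (T.K Y) L' k p) := by
  obtain ⟨Z, Z', h1, h2⟩ := hK
  refine LinearEquiv.finrank_eq (LinearEquiv.ofLinearMap
    (((T.lin.act Z).domRestrict _).codRestrict _ fun x => (h1 x.1 x.2).1)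
    (((T.lin.act Z').domRestrict _).codRestrict _ fun y => (h2 y.1 y.2).1) ?_ ?_)
  · ext y
    exact (h2 y y.2).2
  · ext x
    exact (h1 x x.2).2

theorem finrank_iso {m : ℕ} (hI : T.Iso X Y m) {p q : ℤ} (hpq : p + q = m) :
    (T.K X).h p q = (T.K Y).h p q := by
  obtain ⟨Z, hZ, Z', hZ', h1, h2⟩ := hI
  have m1 : ∀ x ∈ (T.K X).H (p, q), T.act Z x ∈ (T.K Y).H (p, q) := by
    intro x hx
    have := T.act_mem hZ p q x hx
    rwa [add_zero, add_zero] at this
  have m2 : ∀ y ∈ (T.K Y).H (p, q), T.act Z' y ∈ (T.K X).H (p, q) := by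
    intro x hx
    have := T.act_mem hZ' p q x hx
    rwa [add_zero, add_zero] at this
  unfold KRing.h
  refine LinearEquiv.finrank_eq (LinearEquiv.ofLinearMap
    (((T.lin.act Z).domRestrict _).codRestrict _ fun x => m1 x.1 x.2)
    (((T.lin.act Z').domRestrict _).codRestrict _ fun y => m2 y.1 y.2) ?_ ?_)
  · ext y
    exact h2 p q y y.2 hpq
  · ext x
    exact h1 p q x x.2 hpq

variable (hBX : T.ConjB X) (h : T.IsDerivedPair v w) (hc : Commutes T v L L')

include hBX h hc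

theorem defect_two (hX : DefectTwo (T.K X) L) (hY : DefectTwo (T.K Y) L') (m : ℕ) :
    T.Iso X Y m := by
  have hB1 : T.lin.ConjB X := hBX
  exact iso_two T.lin (pair_lin T h) hB1 (conjB_trans T.lin hB1 (pair_lin T h)) hc.alg hc.comm
    hc.chern hX hY m

theorem forms_iso (hX : Semipositive (T.K X) L) (hY : Semipositive (T.K Y) L') {p k : ℕ}
    (hk : p + k + 2 = n) : FormsIso T L L' k p := by
  have hB1 : T.lin.ConjB X := hBX
  exact hol_geo T.lin (pair_lin T h) hB1 (conjB_trans T.lin hB1 (pair_lin T h)) hc.alg hc.comm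
    hc.chern hX hY hk

omit hBX h hc in
theorem kmap_lin (h' : T.lin.IsDerivedPair v w) {A : Act (Ealg T.lin X) (T.K X)}
    {B : Act (Ealg T.lin X) (T.K Y)} (hA : A.ρ = rhoE T.lin X) (hB : B.ρ = rhoF T.lin h') {k : ℕ}
    {p : ℤ} (hK : KilledIso T L L' k p) : KMap A B (fm T.lin h') L L' k p := by
  obtain ⟨Z, Z', h1, h2⟩ := hK
  exact kmap T.lin h' A B hA hB (Z := Z) (Z' := Z') (fun x hx => (h1 x hx).1)
    (fun y hy => (h2 y hy).1) (fun x hx => (h1 x hx).2) fun y hy => (h2 y hy).2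

theorem iso_one (hX : Semipositive (T.K X) L) (hY : Semipositive (T.K Y) L') {k : ℕ}
    (hk : k + 3 = n) (hK : L ^ (k + 1) ≠ 0 ∨ KilledIso T L L' k 1) : T.Iso X Y 1 := by
  have hB1 : T.lin.ConjB X := hBX
  have h' := pair_lin T h
  obtain ⟨A, hA⟩ := exists_actM T.lin hB1
  obtain ⟨B, hB⟩ := exists_actN T.lin h' (conjB_trans T.lin hB1 h')
  obtain ⟨N, hNA, hNB⟩ := exists_N T.lin h' A B hA hB hc.alg hc.comm
  refine iso_first T.lin h' A B hA hB hNA hNB hc.chern hX hY (k := k) (by omega) ?_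
  rcases hK with hK | hK
  · left
    rwa [add_comm 1 k]
  · right
    exact kmap_lin T h' hA hB hK

theorem iso_deg_two (hX : Semipositive (T.K X) L) (hY : Semipositive (T.K Y) L') {k : ℕ}
    (hk : k + 4 = n) (hK : L ^ (k + 2) ≠ 0 ∨ KilledIso T L L' k 2) (hlX : Lefschetz T X)
    (hlY : Lefschetz T Y) (h11 : (T.K X).h 1 1 = (T.K Y).h 1 1) : T.Iso X Y 2 := by
  have hB1 : T.lin.ConjB X := hBX
  have h' := pair_lin T h
  have hint1 : Intertwines (fm T.lin h') (T.K X).c (T.K Y).c := hc.chern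
  have hint2 : Intertwines (fm T.lin h') L L' := hc.comm
  obtain ⟨A, hA⟩ := exists_actM T.lin hB1
  obtain ⟨B, hB⟩ := exists_actN T.lin h' (conjB_trans T.lin hB1 h')
  obtain ⟨N, hNA, hNB⟩ := exists_N T.lin h' A B hA hB hc.alg hc.comm
  refine iso_second T.lin h' A B hA hB hB1 (conjB_trans T.lin hB1 h') hNA hNB hc.chern hX hY
    (k := k) (by omega) ?_ hlX hlY ?_ h11
  · rcases hK with hK | hK
    · left
      rwa [add_comm 2 k]
    · right
      exact kmap_lin T h' hA hB hK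
  · rcases hK with hK | hK
    · exact forms_all hX hY hint1 hint2 (m := k + 2) (by omega) hK 2
    · have h1 := rank_eq hX hY hint1 hint2 (p := 2) (by norm_num) (k := k) (by omega)
      have h2 := finrank_killed T hK
      have h3 : (T.lin.K X).h 2 0 + finrank ℂ (killed (T.K Y) L' k 2) =
          (T.lin.K Y).h 2 0 + finrank ℂ (killed (T.K X) L k 2) := h1
      omega

theorem forms_full (hX : Semipositive (T.K X) L) (hY : Semipositive (T.K Y) L') {m p : ℕ}
    (hm : m + 2 = n) (hL : L ^ m ≠ 0) (hp : p ≤ m) : ∃ Z ∈ T.gr X Y 0, ∃ Z' ∈ T.gr Y X 0,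
      (∀ x ∈ (T.K X).H ((p : ℤ), 0), T.act Z' (T.act Z x) = x) ∧
      ∀ y ∈ (T.K Y).H ((p : ℤ), 0), T.act Z (T.act Z' y) = y := by
  obtain ⟨k, rfl⟩ := Nat.exists_eq_add_of_le hp
  have h' := pair_lin T h
  have hint1 : Intertwines (fm T.lin h') (T.K X).c (T.K Y).c := hc.chern
  have hint2 : Intertwines (fm T.lin h') L L' := hc.comm
  obtain ⟨Z, hZ, Z', hZ', h1, h2, -, -⟩ := forms_iso T hBX h hc hX hY (p := p) (k := k) hm
  have kX := killed_eq_bot hX (p := p) (k := k) rfl hL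
  have kY := killed_eq_bot hY (p := p) (k := k) rfl
    (pow_ne_zero_iff (Φ := fm T.lin h') hX hY hint1 hint2 hm hL)
  have mem : ∀ {A B : 𝒪} {W : A ⟶ B}, W ∈ T.gr A B 0 → ∀ x ∈ (T.K A).H ((p : ℤ), 0),
      T.act W x ∈ (T.K B).H ((p : ℤ), 0) := by
    intro A B W hW x hx
    have := T.act_mem hW _ _ x hx
    rwa [add_zero, add_zero] at this
  refine ⟨Z, hZ, Z', hZ', fun x hx => ?_, fun y hy => ?_⟩
  · have g1 : T.act Z' (T.act Z x) - x ∈ killed (T.K X) L k p := by
      refine mem_killed.2 ⟨Submodule.sub_mem _ (mem hZ' _ (mem hZ x hx)) hx, ?_⟩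
      rw [mul_sub, h1 x hx, sub_self]
    rw [kX, Submodule.mem_bot] at g1
    exact sub_eq_zero.1 g1
  · have g1 : T.act Z (T.act Z' y) - y ∈ killed (T.K Y) L' k p := by
      refine mem_killed.2 ⟨Submodule.sub_mem _ (mem hZ _ (mem hZ' y hy)) hy, ?_⟩
      rw [mul_sub, h2 y hy, sub_self]
    rw [kY, Submodule.mem_bot] at g1
    exact sub_eq_zero.1 g1

end lin

/-- Fivefolds. -/
theorem five (T : CycTheory 𝒪 5) {v : X ⟶ Y} {w : Y ⟶ X} {L : (T.K X).R} {L' : (T.K Y).R}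
    (hBX : T.ConjB X) (h : T.IsDerivedPair v w) (hc : Commutes T v L L')
    (hX : Semipositive (T.K X) L) (hY : Semipositive (T.K Y) L')
    (hK : L ^ 3 ≠ 0 ∨ T.Iso X Y 1 ∧ KilledIso T L L' 1 2) (hlX : Lefschetz T X)
    (hlY : Lefschetz T Y) {e : ℤ} (eX : LibgoberWood (T.K X) e) (eY : LibgoberWood (T.K Y) e)
    (m : ℕ) : T.Iso X Y m := by
  have hB1 : T.lin.ConjB X := hBX
  have h' := pair_lin T h
  have hint1 : Intertwines (fm T.lin h') (T.K X).c (T.K Y).c := hc.chern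
  have hint2 : Intertwines (fm T.lin h') L L' := hc.comm
  have i1 : T.Iso X Y 1 := by
    rcases hK with hK | hK
    · exact iso_one T hBX h hc hX hY (k := 2) rfl (Or.inl hK)
    · exact hK.1
  have h10 : (T.K X).h 1 0 = (T.K Y).h 1 0 := finrank_iso T i1 (by norm_num)
  have h20 : (T.K X).h 2 0 = (T.K Y).h 2 0 :=
    five_20 (Φ := fm T.lin h') hX hY hint1 hint2 (hK.imp_right fun h1 => finrank_killed T h1.2)
  have hall := five_all (fm T.lin h') h10 h20 eX eY
  have i2 : T.Iso X Y 2 := iso_deg_two T hBX h hc hX hY (k := 1) rfl (hK.imp_right And.right)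
    hlX hlY (hall 1 1)
  refine (low T.lin hB1 (conjB_trans T.lin hB1 h') h').2.2.2 (fun j h1 h2 => ?_) m
  have h3 : j = 1 ∨ j = 2 := by omega
  rcases h3 with rfl | rfl
  · exact i1
  · exact i2

end Pool.Agent.P8H30.OR
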