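import Pool.Agent.P8H30.OR.Kil
import Pool.Agent.N174.OC.Pub

/-!
# Correspondences
-/

open CategoryTheory

set_option autoImplicit false
set_option linter.unusedSectionVars false

universe u v

namespace Pool.Agent.P8H30.OR

open Module Pool.Agent.W539.DI Pool.Agent.R941.OH Pool.Agent.R929.DH Pool.Agent.P8H56.DH
  Pool.Agent.N174.OC

variable {𝒪 : Type u} [Category.{v} 𝒪] [Preadditive 𝒪] [Linear ℚ 𝒪] {n : ℕ}
  (T : CorTheory 𝒪 n) {X Y : 𝒪} {v : X ⟶ Y} {w : Y ⟶ X} (h : T.IsDerivedPair v w)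

section

variable (A : Act (Ealg T X) (T.K X)) (B : Act (Ealg T X) (T.K Y)) (hA : A.ρ = rhoE T X)
  (hB : B.ρ = rhoF T h)

include hA hB

theorem phi_rho (a : Ealg T X) (x : (T.K X).R) :
    (fm T h).φ (A.ρ a x) = B.ρ a ((fm T h).φ x) := by
  rw [hA, hB, fm_apply, fm_apply, rhoF_apply]
  simp only [LinearMap.comp_apply, wv T h]

theorem rho_v (a : Ealg T X) (x : (T.K X).R) : T.act v (A.ρ a x) = B.ρ a (T.act v x) :=
  phi_rho T h A B hA hB a x

theorem act_wB (a : Ealg T X) (y : (T.K Y).R) : T.act w (B.ρ a y) = A.ρ a (T.act w y) := by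
  have h1 := rho_v T h A B hA hB a (T.act w y)
  rw [vw T h] at h1
  rw [← h1, wv T h]

/-- The multiplication by `L`. -/
theorem exists_N {L : (T.K X).R} {L' : (T.K Y).R} (hL : ∃ ℓ : X ⟶ X, ∀ x, T.act ℓ x = L * x)
    (hint : ∀ x, T.act v (L * x) = L' * T.act v x) :
    ∃ N : Ealg T X, A.ρ N = mu (T.K X) L ∧ B.ρ N = mu (T.K Y) L' := by
  obtain ⟨ℓ, hℓ⟩ := hL
  obtain ⟨N, hN⟩ := exists_E T (a := mu (T.K X) L) ⟨ℓ, LinearMap.ext hℓ⟩
  refine ⟨N, by rw [hA, hN], ?_⟩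
  ext y
  have h1 := rho_v T h A B hA hB N (T.act w y)
  rw [vw T h, hA, hN] at h1
  rw [← h1]
  have h2 := hint (T.act w y)
  rw [vw T h] at h2
  exact h2

/-- Correspondences of degree zero given by elements of the ring. -/
theorem geo {p : ℕ} {a b : Ealg T X} (ha : A.L.p p * a = a) (hb : B.L.p p * b = b) :
    ∃ Z ∈ T.gr X Y 0, ∃ Z' ∈ T.gr Y X 0,
      (∀ (r s : ℤ) (x : (T.K X).R), x ∈ (T.K X).H (r, s) → r + s = p →
        T.act Z' (T.act Z x) = A.ρ (a * b) x) ∧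
      (∀ (r s : ℤ) (y : (T.K Y).R), y ∈ (T.K Y).H (r, s) → r + s = p →
        T.act Z (T.act Z' y) = B.ρ (b * a) y) ∧
      (∀ (r s : ℤ) (x : (T.K X).R), x ∈ (T.K X).H (r, s) → r + s = p → A.ρ b x = 0 →
        T.act Z x = 0) ∧
      ∀ (r s : ℤ) (y : (T.K Y).R), y ∈ (T.K Y).H (r, s) → r + s = p → B.ρ a y = 0 →
        T.act Z' y = 0 := by
  have haA : IsAlg T (A.ρ a) := by rw [hA]; exact rhoE_alg T a
  have hbA : IsAlg T (A.ρ b) := by rw [hA]; exact rhoE_alg T b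
  obtain ⟨Γ, hΓ⟩ := IsAlg.comp T (isAlg_act T v) hbA
  obtain ⟨Δ, hΔ⟩ := IsAlg.comp T haA (isAlg_act T w)
  have hΓ' : ∀ x, T.act Γ x = T.act v (A.ρ b x) := fun x =>
    congrArg (fun f : (T.K X).R →ₗ[ℂ] (T.K Y).R => f x) hΓ
  have hΔ' : ∀ y, T.act Δ y = A.ρ a (T.act w y) := fun x =>
    congrArg (fun f : (T.K Y).R →ₗ[ℂ] (T.K X).R => f x) hΔ
  have g1 : ∀ (r s : ℤ) (x : (T.K X).R), x ∈ (T.K X).H (r, s) → r + s = p →
      T.act (c0 T Γ) x = T.act v (A.ρ b x) := by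
    intro r s x hx hm
    rw [act_c0 T Γ hx hm, hΓ', ← B.rho_p, rho_v T h A B hA hB, ← rho_mul, hb]
  have g2 : ∀ (r s : ℤ) (y : (T.K Y).R), y ∈ (T.K Y).H (r, s) → r + s = p →
      T.act (c0 T Δ) y = A.ρ a (T.act w y) := by
    intro r s y hy hm
    rw [act_c0 T Δ hy hm, hΔ', ← A.rho_p, ← rho_mul, ha]
  refine ⟨c0 T Γ, c0_mem T Γ, c0 T Δ, c0_mem T Δ, fun r s x hx hm => ?_, fun r s y hy hm => ?_,
    fun r s x hx hm h0 => by rw [g1 r s x hx hm, h0, map_zero], fun r s y hy hm h0 => ?_⟩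
  · rw [g2 _ _ _ (T.act_mem (c0_mem T Γ) r s x hx) (by rw [add_zero, add_zero, hm]),
      g1 r s x hx hm, wv T h, rho_mul]
  · rw [g1 _ _ _ (T.act_mem (c0_mem T Δ) r s y hy) (by rw [add_zero, add_zero, hm]),
      g2 r s y hy hm, rho_v T h A B hA hB, rho_v T h A B hA hB, vw T h, rho_mul]
  · have h1 := rho_v T h A B hA hB a (T.act w y)
    rw [vw T h, h0] at h1
    have h2 := congrArg (fun z => T.act w z) h1
    rw [g2 r s y hy hm]
    change T.act w (T.act v (A.ρ a (T.act w y))) = T.act w 0 at h2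
    rw [wv T h, map_zero] at h2
    exact h2

theorem iso_of_rk (m : ℕ) (hm : m ≤ 2 * n)
    (hr : ∀ S : Submodule (Ealg T X) (Ealg T X), rk S (A.L.p m) = rk S (B.L.p m)) :
    T.Iso X Y m := by
  refine iso_of_sameAlg T ?_
  rw [same_iff' T h A B hA hB (fun j => j = m)]
  intro S
  have e : (Finset.range (2 * n + 1)).filter (fun j => j = m) = {m} := by
    ext j
    simp only [Finset.mem_filter, Finset.mem_range, Finset.mem_singleton]
    omega
  rw [t_pD, t_pD, e, Finset.sum_singleton, Finset.sum_singleton, tS_rk S (A.L.p_self m),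
    tS_rk S (B.L.p_self m), hr]

theorem rk_of_iso (hBX : T.ConjB X) (hBY : T.ConjB Y) (m : ℕ) (hm : m ≤ 2 * n)
    (hi : T.Iso X Y m) (S : Submodule (Ealg T X) (Ealg T X)) :
    rk S (A.L.p m) = rk S (B.L.p m) := by
  have h1 := sameAlg_of_iso T hBX hBY hi
  rw [same_iff' T h A B hA hB (fun j => j = m)] at h1
  have h2 := h1 S
  have e : (Finset.range (2 * n + 1)).filter (fun j => j = m) = {m} := by
    ext j
    simp only [Finset.mem_filter, Finset.mem_range, Finset.mem_singleton]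
    omega
  rw [t_pD, t_pD, e, Finset.sum_singleton, Finset.sum_singleton, tS_rk S (A.L.p_self m),
    tS_rk S (B.L.p_self m)] at h2
  exact_mod_cast h2

/-- Correspondences between the killed forms. -/
theorem kmap {L : (T.K X).R} {L' : (T.K Y).R} {k : ℕ} {p : ℤ} {Z : X ⟶ Y} {Z' : Y ⟶ X}
    (h1 : ∀ x ∈ killed (T.K X) L k p, T.act Z x ∈ killed (T.K Y) L' k p)
    (h2 : ∀ y ∈ killed (T.K Y) L' k p, T.act Z' y ∈ killed (T.K X) L k p)
    (h3 : ∀ x ∈ killed (T.K X) L k p, T.act Z' (T.act Z x) = x)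
    (h4 : ∀ y ∈ killed (T.K Y) L' k p, T.act Z (T.act Z' y) = y) :
    KMap A B (fm T h) L L' k p := by
  obtain ⟨a, ha⟩ := exists_E T (a := T.act w ∘ₗ T.act Z)
    (IsAlg.comp T (isAlg_act T w) (isAlg_act T Z))
  obtain ⟨b, hb⟩ := exists_E T (a := T.act Z' ∘ₗ T.act v)
    (IsAlg.comp T (isAlg_act T Z') (isAlg_act T v))
  have ha' : ∀ x, A.ρ a x = T.act w (T.act Z x) := fun x => by rw [hA, ha]; rfl
  have hb' : ∀ x, A.ρ b x = T.act Z' (T.act v x) := fun x => by rw [hA, hb]; rfl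
  have haB : ∀ y, B.ρ a y = T.act Z (T.act w y) := by
    intro y
    have := rho_v T h A B hA hB a (T.act w y)
    rw [vw T h, ha', vw T h] at this
    exact this.symm
  have hbB : ∀ y, B.ρ b y = T.act v (T.act Z' y) := by
    intro y
    have := rho_v T h A B hA hB b (T.act w y)
    rw [vw T h, hb', vw T h] at this
    exact this.symm
  refine ⟨a, b, fun x hx => ?_, fun y hy => ?_, fun x hx => ?_, fun y hy => ?_⟩
  · rw [fm_apply, ha', vw T h]
    exact h1 x hx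
  · have : (fm T h).φ.symm (B.ρ b y) = T.act Z' y := by
      show T.act w (B.ρ b y) = _
      rw [hbB, wv T h]
    rw [this]
    exact h2 y hy
  · rw [rho_mul, ha', hb', vw T h]
    exact h3 x hx
  · rw [rho_mul, hbB, haB, wv T h]
    exact h4 y hy

end

include h in
/-- Orlov's conjecture for equivalences commuting with a class of defect at most two. -/
theorem iso_two (hBX : T.ConjB X) (hBY : T.ConjB Y) {L : (T.K X).R} {L' : (T.K Y).R}
    (hL : ∃ ℓ : X ⟶ X, ∀ x, T.act ℓ x = L * x) (hint : ∀ x, T.act v (L * x) = L' * T.act v x)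
    (hc : ∀ x, T.act v ((T.K X).c * x) = (T.K Y).c * T.act v x)
    (hX : DefectTwo (T.K X) L) (hY : DefectTwo (T.K Y) L') (m : ℕ) : T.Iso X Y m := by
  obtain ⟨A, hA⟩ := exists_actM T hBX
  obtain ⟨B, hB⟩ := exists_actN T h hBY
  obtain ⟨N, hNA, hNB⟩ := exists_N T h A B hA hB hL hint
  rcases Nat.lt_or_ge (2 * n) m with hm | hm
  · refine ⟨0, Submodule.zero_mem _, 0, Submodule.zero_mem _, fun p q x hx hpq => ?_,
      fun p q x hx hpq => ?_⟩
    · rw [zero_of (T.K X) (by omega) hx]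
      simp
    · rw [zero_of (T.K Y) (by omega) hx]
      simp
  · exact iso_of_rk T h A B hA hB m hm fun S =>
      all_two A B (fm T h) (phi_rho T h A B hA hB) hNA hNB hc hX hY S m

include h in
/-- The holomorphic forms. -/
theorem hol_geo (hBX : T.ConjB X) (hBY : T.ConjB Y) {L : (T.K X).R} {L' : (T.K Y).R}
    (hL : ∃ ℓ : X ⟶ X, ∀ x, T.act ℓ x = L * x) (hint : ∀ x, T.act v (L * x) = L' * T.act v x)
    (hc : ∀ x, T.act v ((T.K X).c * x) = (T.K Y).c * T.act v x)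
    (hX : Semipositive (T.K X) L) (hY : Semipositive (T.K Y) L') {p k : ℕ} (hk : p + k + 2 = n) :
    ∃ Z ∈ T.gr X Y 0, ∃ Z' ∈ T.gr Y X 0,
      (∀ x ∈ (T.K X).H ((p : ℤ), 0), L ^ k * T.act Z' (T.act Z x) = L ^ k * x) ∧
      (∀ y ∈ (T.K Y).H ((p : ℤ), 0), L' ^ k * T.act Z (T.act Z' y) = L' ^ k * y) ∧
      (∀ x ∈ killed (T.K X) L k p, T.act Z x = 0) ∧
      ∀ y ∈ killed (T.K Y) L' k p, T.act Z' y = 0 := by
  obtain ⟨A, hA⟩ := exists_actM T hBX
  obtain ⟨B, hB⟩ := exists_actN T h hBY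
  obtain ⟨N, hNA, hNB⟩ := exists_N T h A B hA hB hL hint
  have _ := A.semisimple
  obtain ⟨a, b, h1, h2, h3, h4, h5, h6⟩ := hol_equiv A B (fm T h) (phi_rho T h A B hA hB) hNA hNB
    hc hX hY hk
  obtain ⟨Z, hZ, Z', hZ', g1, g2, g3, g4⟩ := geo T h A B hA hB h1 h2
  exact ⟨Z, hZ, Z', hZ', fun x hx => by rw [g1 _ _ x hx (by ring), h3 x hx],
    fun y hy => by rw [g2 _ _ y hy (by ring), h4 y hy],
    fun x hx => g3 _ _ x (mem_killed.1 hx).1 (by ring) (h5 x hx),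
    fun y hy => g4 _ _ y (mem_killed.1 hy).1 (by ring) (h6 y hy)⟩

end Pool.Agent.P8H30.OR
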