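import Pool.Agent.P8H30.OR.Count

/-!
# Semipositive classes: comparison of the parts of the motives with holomorphic forms
-/

set_option autoImplicit false
set_option linter.unusedSectionVars false

open scoped ComplexConjugate
open Module Pool.Agent.W539.DI Pool.Agent.R941.OH Pool.Agent.R929.DH Pool.Agent.P8H56.DH

namespace Pool.Agent.P8H30.OR

section forms

variable {n : ℕ} {X : KRing n} {L : X.R}

theorem pow_nil (hm : L ∈ X.H (1, 1)) {k : ℕ} (hk : n < k) (x : X.R) : L ^ k * x = 0 := by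
  refine X.ind (P := fun x => L ^ k * x = 0) ?_ ?_ ?_ x
  · simp
  · intro x y hx hy
    rw [mul_add, hx, hy, add_zero]
  · intro p q x hx
    by_cases h : p < 0 ∨ q < 0
    · rw [zero_of X (by omega) hx, mul_zero]
    · exact zero_of X (by omega) (X.pow_mul_mem hm k hx)

theorem semi_q2 (hL : Semipositive X L) {p : ℤ} {k : ℕ} (hk : p + k + 2 = n) {x : X.R}
    (hx : x ∈ X.H (p, 0)) :
    0 ≤ sg p 0 * q2 X L k x ∧ (L ^ k * x ≠ 0 → 0 < sg p 0 * q2 X L k x) := by
  have key : L ^ k * x ≠ 0 → 0 < sg p 0 * q2 X L k x := by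
    intro hne
    obtain ⟨r, hr, he⟩ := hL.pos p k 2 (by push_cast; omega) x hx hne
    have h1 := q2_of hL.mem k hx
    rw [sub_zero, add_zero, he] at h1
    have h2 := congrArg Complex.re h1
    rw [Complex.re_ofReal_mul, Complex.ofReal_re] at h2
    unfold q2
    rw [h2]
    exact hr
  refine ⟨?_, key⟩
  by_cases hne : L ^ k * x = 0
  · have : q2 X L k x = 0 := by
      unfold q2
      rw [hf_F hL.real, om_swap hL.mem, om_swap hL.mem, hne, mul_zero, mul_zero, F_zero_right]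
      rfl
    rw [this, mul_zero]
  · exact (key hne).le

theorem low_typ {p : ℤ} {z : X.R} (hz : z ∈ typ X p 0) {j : ℕ} (hj : (j : ℤ) < p) :
    dg X j z = 0 := by
  by_cases hpar : ∃ k : ℤ, p + k + (0 + k) = j
  · obtain ⟨i, hi⟩ := hpar
    exact zero_of X (by omega) (mem_of_typ hz (p := p + i) (q := 0 + i) hi (by ring))
  · push Not at hpar
    exact dg_typ_zero hz hpar

end forms

section main

variable {E : Type} [Ring E] [Algebra ℚ E] [FiniteDimensional ℚ E] {n : ℕ} {X Y : KRing n}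

/-- The elements of degree `m` killed by `N ^ k`. -/
noncomputable def KK (S : Submodule E E) (L : Lef E n) (N : E) (m k : ℕ) : Submodule ℚ S :=
  LinearMap.range (op S (L.p m)) ⊓ LinearMap.ker (op S (N ^ k))

theorem mem_KK (S : Submodule E E) (L : Lef E n) (N : E) (m k : ℕ) (x : S) :
    x ∈ KK S L N m k ↔ L.p m * (x : E) = x ∧ N ^ k * (x : E) = 0 := by
  unfold KK
  rw [Submodule.mem_inf, mem_rg, LinearMap.mem_ker]
  refine and_congr_right fun _ => ?_
  rw [← Subtype.coe_inj, coe_op]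
  rfl

theorem finrank_KK (S : Submodule E E) (L : Lef E n) (N : E) (m k : ℕ) :
    rk S (N ^ k * L.p m) + finrank ℚ (KK S L N m k) = rk S (L.p m) := by
  let g : LinearMap.range (op S (L.p m)) →ₗ[ℚ] S :=
    (op S (N ^ k)) ∘ₗ (LinearMap.range (op S (L.p m))).subtype
  have h1 := LinearMap.finrank_range_add_finrank_ker g
  have h2 : LinearMap.range g = LinearMap.range (op S (N ^ k * L.p m)) := by
    rw [LinearMap.range_comp, Submodule.range_subtype, op_mul, LinearMap.range_comp]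
  have h3 : finrank ℚ (LinearMap.ker g) = finrank ℚ (KK S L N m k) := by
    have : LinearMap.ker g = (KK S L N m k).comap (LinearMap.range (op S (L.p m))).subtype := by
      ext x
      simp only [g, LinearMap.mem_ker, LinearMap.comp_apply, Submodule.subtype_apply,
        Submodule.mem_comap, KK, Submodule.mem_inf, SetLike.coe_mem, true_and]
    rw [this]
    exact (Submodule.comapSubtypeEquivOfLe inf_le_left).finrank_eq
  rw [h2, h3] at h1
  exact h1

theorem neg_key' (A : Act E X) {L : X.R} (hX : Semipositive X L) {p k : ℕ}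
    (hk : p + k + 2 = n) {x y : E} (hx : A.L.p p * x = x) (hy : A.L.p p * y = y) {h : X.R}
    (hh : h ∈ typ X p 0)
    (h0 : 0 ≤ sg p 0 * bf X L k (A.ρ ((1 - A.L.o * A.L.o) * x + A.L.o * y) h)
      (A.ρ ((1 - A.L.o * A.L.o) * x + A.L.o * y) h)) :
    L ^ k * A.ρ x h = 0 ∧ L ^ k * A.ρ y h = 0 := by
  have key : ∀ {x : E}, A.L.p p * x = x → A.ρ x h ∈ X.H ((p : ℤ), 0) := by
    intro x h1
    have h3 := mem_of_typ (A.typ_mem' x hh) (m := p) (p := p) (q := 0) (by ring) rfl
    rw [← A.rho_p, ← rho_mul, h1] at h3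
    exact h3
  have x1 := key hx
  have y1 := key hy
  have e1 : A.ρ ((1 - A.L.o * A.L.o) * x + A.L.o * y) h =
      (A.ρ x h - X.ω * (X.ω * A.ρ x h)) + X.ω * A.ρ y h := by
    rw [sub_mul, one_mul, map_add, map_sub, LinearMap.add_apply, LinearMap.sub_apply, mul_assoc,
      rho_mul, rho_mul, rho_mul, rho_o, rho_o, rho_o]
  rw [e1, neg_side hX.mem hX.real hk (by ring) x1 y1] at h0
  obtain ⟨gx, gx'⟩ := semi_q2 hX (k := k) (by omega) x1
  obtain ⟨gy, gy'⟩ := semi_q2 hX (k := k) (by omega) y1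
  constructor
  · by_contra hne
    have := gx' hne
    nlinarith
  · by_contra hne
    have := gy' hne
    nlinarith

theorem pos_key' (B : Act E Y) {L : Y.R} {N : E} (hB : B.ρ N = mu Y L) (hY : Semipositive Y L)
    {p k : ℕ} (hk : p + k + 2 = n) {x : E} (hw : N ^ k * B.L.o * B.L.p (p + 2) * x = 0)
    (hw' : N ^ k * (B.L.p (p + 4) - B.L.o * B.L.o * B.L.p p) * x = 0) {h : Y.R}
    (hh : h ∈ typ Y p 0) : 0 ≤ sg p 0 * bf Y L k (B.ρ x h) (B.ρ x h) := by
  set z := B.ρ x h with hz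
  have hzt : z ∈ typ Y p 0 := B.typ_mem' x hh
  have e2 : L ^ k * (Y.ω * dg Y (p + 2) z) = 0 := by
    have h1 := congrArg (fun e => B.ρ e h) hw
    simp only [rho_mul, map_zero, LinearMap.zero_apply] at h1
    rwa [rho_pow B hB, B.rho_p, rho_o] at h1
  have e3 : L ^ k * dg Y (p + 4) z =
      L ^ k * (Y.ω * (Y.ω * dg Y p z)) + L ^ (n + 1) * 0 := by
    have h1 := congrArg (fun e => B.ρ e h) hw'
    simp only [rho_mul, map_sub, LinearMap.sub_apply, rho_pow B hB, B.rho_p, rho_o, map_zero,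
      LinearMap.zero_apply] at h1
    rw [← hz, mul_sub, sub_eq_zero] at h1
    rw [h1, mul_zero, add_zero]
  rw [pos_side hY.mem hY.real hk (fun j hj => low_typ hzt (by omega))
    (dg_typ_zero hzt (by intro i; push_cast; omega))
    (dg_typ_zero hzt (by intro i; push_cast; omega)) _ (n + 1) e3
    (pow_nil hY.mem (by omega) _)]
  have g1 := (semi_q2 hY (k := k) (by omega) (mem_of_typ hzt (m := p) (p := p) (q := 0)
    (by ring) rfl)).1
  have g2 : 0 ≤ sg (p + 1) 1 * bf Y L k (dg Y (p + 2) z) (dg Y (p + 2) z) :=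
    semi_pos hY (by omega) (mem_of_typ hzt (by push_cast; ring) (by ring)) e2
  have g3 : sg ((p : ℤ) + 1) 1 = sg p 0 := by
    have := sg_pred ((p : ℤ) + 1) 1
    rw [add_sub_cancel_right, sub_self] at this
    exact this.symm
  rw [g3] at g2
  nlinarith

variable (A : Act E X) (B : Act E Y) (Φ : FM X Y) (hΦ : ∀ a x, Φ.φ (A.ρ a x) = B.ρ a (Φ.φ x))
  {L : X.R} {L' : Y.R} {N : E} (hA : A.ρ N = mu X L) (hB : B.ρ N = mu Y L')
  (hc : Intertwines Φ X.c Y.c)

include hΦ hA hB hc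

theorem ineq_hol (hX : Semipositive X L) (hY : Semipositive Y L') (S : Submodule E E) {p k : ℕ}
    (hk : p + k + 2 = n)
    (hS : ∀ x : S, (∀ h ∈ typ X p 0, A.ρ (x : E) h = 0) → (x : E) = 0) :
    rk S (N ^ k * A.L.p p) ≤ rk S (N ^ k * B.L.p p) := by
  have hint := inter A B Φ hΦ hA hB
  obtain ⟨C0, hC⟩ := Submodule.exists_isCompl (KK S A.L N p k)
  set V : Submodule ℚ S := LinearMap.range (op S (A.L.p p)) with hV
  set C : Submodule ℚ S := V ⊓ C0 with hCdef
  have hKV : KK S A.L N p k ≤ V := inf_le_left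
  have hKC : KK S A.L N p k ⊔ C = V := by
    have : KK S A.L N p k ⊔ C0 ⊓ V = (KK S A.L N p k ⊔ C0) ⊓ V :=
      (sup_inf_assoc_of_le C0 hKV).symm
    rw [hCdef, inf_comm, this, hC.sup_eq_top, top_inf_eq]
  have hKCd : KK S A.L N p k ⊓ C = ⊥ := by
    rw [eq_bot_iff]
    rintro x ⟨hx1, -, hx2⟩
    have : x ∈ KK S A.L N p k ⊓ C0 := ⟨hx1, hx2⟩
    rwa [hC.inf_eq_bot] at this
  have hdimC : finrank ℚ C = rk S (N ^ k * A.L.p p) := by
    have h1 := Submodule.finrank_sup_add_finrank_inf_eq (KK S A.L N p k) C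
    rw [hKC, hKCd, finrank_bot, add_zero] at h1
    have h2 := finrank_KK S A.L N p k
    have h3 : finrank ℚ V = rk S (A.L.p p) := rfl
    omega
  have memC : ∀ x : S, x ∈ C → A.L.p p * (x : E) = x := fun x hx => (mem_rg S A.L p x).1 hx.1
  -- elements killed on all test classes are zero
  have hkill : ∀ x : S, x ∈ C → (∀ h ∈ typ X p 0, L ^ k * A.ρ (x : E) h = 0) → x = 0 := by
    intro x hx h0
    have h1 : N ^ k * (x : E) = 0 := hS (op S (N ^ k) x) fun h hh => by
      show A.ρ (N ^ k * (x : E)) h = 0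
      rw [rho_mul, rho_pow A hA]
      exact h0 h hh
    have h2 : x ∈ KK S A.L N p k ⊓ C := ⟨(mem_KK S _ _ _ _ _).2 ⟨memC x hx, h1⟩, hx⟩
    rwa [hKCd, Submodule.mem_bot] at h2
  obtain ⟨U, hU1, hU2⟩ := image_two C (op S (1 - A.L.o * A.L.o)) (op S A.L.o)
    (by
      intro x hx y hy hxy
      have e0 : (1 - A.L.o * A.L.o) * (x : E) + A.L.o * (y : E) = 0 := congrArg Subtype.val hxy
      have key : ∀ h ∈ typ X p 0, L ^ k * A.ρ (x : E) h = 0 ∧ L ^ k * A.ρ (y : E) h = 0 := by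
        intro h hh
        refine neg_key' A hX hk (memC x hx) (memC y hy) hh ?_
        rw [e0, map_zero, LinearMap.zero_apply]
        exact le_of_eq ((isHerm (X := X) (w := L) (k := k) (sg p 0)).zero_left 0).symm
      exact ⟨hkill x hx fun h hh => (key h hh).1, hkill y hy fun h hh => (key h hh).2⟩)
  set f₁ := op S (N ^ k * B.L.o * B.L.p (p + 2)) with hf₁
  set f₂ := op S (N ^ k * (B.L.p (p + 4) - B.L.o * B.L.o * B.L.p p)) with hf₂
  set W₁ : Submodule ℚ S := LinearMap.range f₁ with hW₁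
  set W₂ : Submodule ℚ S := LinearMap.range (op S (N ^ k * B.L.p (p + 4))) with hW₂
  have hoop : B.L.o * B.L.o * B.L.p p = B.L.p (p + 4) * (B.L.o * B.L.o) := by
    rw [mul_assoc, B.L.op p, ← mul_assoc, B.L.op (p + 2), mul_assoc]
  have hfW₂ : ∀ x ∈ (⊤ : Submodule ℚ S), f₂ x ∈ W₂ := by
    intro x _
    refine ⟨op S (1 - B.L.o * B.L.o * B.L.p p) x, ?_⟩
    apply Subtype.ext
    rw [coe_op, coe_op, coe_op, ← mul_assoc]
    congr 1
    rw [mul_assoc, mul_sub, mul_one, hoop, ← mul_assoc (B.L.p (p + 4)), B.L.p_self]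
  have hdim := cond_two ⊤ W₁ ⊥ W₂ ⊥ bot_le bot_le f₁ f₂ (fun x _ => ⟨x, rfl⟩) hfW₂
  have hdis := finrank_disj U (⊤ ⊓ (⊥ : Submodule ℚ S).comap f₁ ⊓ (⊥ : Submodule ℚ S).comap f₂) ⊤
    le_top le_top
    (by
      intro z hz hz2
      obtain ⟨x, hx, y, hy, hxy⟩ := hU2 z hz
      have e0 : (z : E) = (1 - A.L.o * A.L.o) * (x : E) + A.L.o * (y : E) :=
        congrArg Subtype.val hxy
      obtain ⟨⟨-, hw⟩, hw'⟩ := hz2
      have hw1 : N ^ k * B.L.o * B.L.p (p + 2) * (z : E) = 0 :=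
        congrArg Subtype.val ((Submodule.mem_bot ℚ).1 hw)
      have hw2 : N ^ k * (B.L.p (p + 4) - B.L.o * B.L.o * B.L.p p) * (z : E) = 0 :=
        congrArg Subtype.val ((Submodule.mem_bot ℚ).1 hw')
      have key : ∀ h ∈ typ X p 0, L ^ k * A.ρ (x : E) h = 0 ∧ L ^ k * A.ρ (y : E) h = 0 := by
        intro h hh
        have g1 := pos_key' B hB hY hk hw1 hw2 (mem_typ_phi Φ hh)
        rw [← hΦ, bf_iso hc hint, e0] at g1
        exact neg_key' A hX hk (memC x hx) (memC y hy) hh g1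
      have hx0 := hkill x hx fun h hh => (key h hh).1
      have hy0 := hkill y hy fun h hh => (key h hh).2
      rw [hxy, hx0, hy0, map_zero, map_zero, add_zero])
  have hNo := Npow_om B hB hY.mem k
  have hW1 : finrank ℚ W₁ ≤ rk S (N ^ k * B.L.p p) := by
    have h1 : rk S (N ^ k * B.L.o * B.L.p (p + 2)) = rk S (N ^ k * B.L.o * B.L.p p) := by
      refine rk_dual' B hB S (κ := k + 1) (fun j => ?_) ?_ (by omega)
      · rw [mul_assoc, B.L.op, ← mul_assoc, Npow_p B hB hY.mem, mul_assoc]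
        congr 2
        ring
      · rcases adj_pow B hB hY.mem hY.real k with h | h
        · right
          intro x y
          rw [hNo, rho_mul, rho_o, F_mul Y.ω_mem Y.ω_bar, h, ← hNo, rho_mul, rho_o]
        · left
          intro x y
          rw [hNo, rho_mul, rho_o, F_mul Y.ω_mem Y.ω_bar, h, ← hNo, rho_mul, rho_o, neg_neg]
    have h2 : finrank ℚ W₁ = rk S (N ^ k * B.L.o * B.L.p (p + 2)) := rfl
    rw [h2, h1, hNo, mul_assoc]
    exact rk_mul_le_right S _ _
  have hW2 : finrank ℚ W₂ = rk S (N ^ k * B.L.p p) :=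
    rk_dual_pow B hB S hY.mem hY.real (by omega)
  rw [finrank_bot, add_zero, add_zero] at hdim
  omega

end main

end Pool.Agent.P8H30.OR
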