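import Pool.Agent.P8H30.OR.Eq

/-!
# The killed forms and the second motive
-/

set_option autoImplicit false
set_option linter.unusedSectionVars false

open scoped ComplexConjugate
open Module Pool.Agent.W539.DI Pool.Agent.R941.OH Pool.Agent.R929.DH Pool.Agent.P8H56.DH

namespace Pool.Agent.P8H30.OR

section main

variable {E : Type} [Ring E] [Algebra ℚ E] [FiniteDimensional ℚ E] [IsSemisimpleRing E] {n : ℕ}
  {X Y : KRing n}

/-- Maps between the killed forms given by an element of the ring. -/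
def KMap (A : Act E X) (B : Act E Y) (Φ : FM X Y) (L : X.R) (L' : Y.R) (k : ℕ) (p : ℤ) : Prop :=
  ∃ a b : E, (∀ x ∈ killed X L k p, Φ.φ (A.ρ a x) ∈ killed Y L' k p) ∧
    (∀ y ∈ killed Y L' k p, Φ.φ.symm (B.ρ b y) ∈ killed X L k p) ∧
    (∀ x ∈ killed X L k p, A.ρ (b * a) x = x) ∧ ∀ y ∈ killed Y L' k p, B.ρ (a * b) y = y

variable (A : Act E X) (B : Act E Y) (Φ : FM X Y) (hΦ : ∀ a x, Φ.φ (A.ρ a x) = B.ρ a (Φ.φ x))

include hΦ

theorem KK_le {L : X.R} {L' : Y.R} {N : E} (hA : A.ρ N = mu X L) (hB : B.ρ N = mu Y L')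
    {p k : ℕ} {a b : E} (h1 : ∀ x ∈ killed X L k p, Φ.φ (A.ρ a x) ∈ killed Y L' k p)
    (h3 : ∀ x ∈ killed X L k p, A.ρ (b * a) x = x) (S : Submodule E E)
    (hS : ∀ x : S, (∀ h ∈ typ X p 0, A.ρ (x : E) h = 0) → (x : E) = 0) :
    finrank ℚ (KK S A.L N p k) ≤ finrank ℚ (KK S B.L N p k) := by
  have hkil : ∀ x : S, x ∈ KK S A.L N p k → ∀ h ∈ typ X p 0, A.ρ (x : E) h ∈ killed X L k p := by
    intro x hx h hh
    obtain ⟨g1, g2⟩ := (mem_KK S _ _ _ _ _).1 hx
    refine mem_killed.2 ⟨?_, ?_⟩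
    · have h3 := mem_of_typ (A.typ_mem' (x : E) hh) (m := p) (p := p) (q := 0) (by ring) rfl
      rw [← A.rho_p, ← rho_mul, g1] at h3
      exact h3
    · rw [← rho_pow A hA, ← rho_mul, g2, map_zero]
      rfl
  have hmem : ∀ x : S, x ∈ KK S A.L N p k → op S a x ∈ KK S B.L N p k := by
    intro x hx
    rw [mem_KK]
    have hin : ∀ h ∈ typ X p 0, Φ.φ (A.ρ (a * (x : E)) h) ∈ killed Y L' k p := by
      intro h hh
      rw [rho_mul]
      exact h1 _ (hkil x hx h hh)
    constructor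
    · have h4 : ((op S (B.L.p p) (op S a x) - op S a x : S) : E) = 0 := by
        refine hS _ fun h hh => ?_
        show A.ρ (B.L.p p * (a * (x : E)) - a * (x : E)) h = 0
        apply Φ.φ.injective
        rw [map_sub, LinearMap.sub_apply, map_sub, rho_mul, hΦ, B.rho_p,
          dg_of Y (mem_killed.1 (hin h hh)).1, if_pos (by ring), sub_self, map_zero]
      exact sub_eq_zero.1 h4
    · have h4 : ((op S (N ^ k) (op S a x) : S) : E) = 0 := by
        refine hS _ fun h hh => ?_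
        show A.ρ (N ^ k * (a * (x : E))) h = 0
        apply Φ.φ.injective
        rw [rho_mul, hΦ, rho_pow B hB, (mem_killed.1 (hin h hh)).2, map_zero]
      exact h4
  let g : KK S A.L N p k →ₗ[ℚ] KK S B.L N p k :=
    ((op S a).domRestrict (KK S A.L N p k)).codRestrict (KK S B.L N p k)
      (fun x => hmem x x.2)
  refine LinearMap.finrank_le_finrank_of_injective (f := g) ?_
  rw [injective_iff_map_eq_zero]
  intro x hx
  have h4 : a * ((x : S) : E) = 0 := congrArg (fun z : KK S B.L N p k => ((z : S) : E)) hx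
  apply Subtype.ext
  apply Subtype.ext
  refine hS _ fun h hh => ?_
  rw [← h3 _ (hkil x x.2 h hh), ← rho_mul, mul_assoc b, h4, mul_zero, map_zero]
  rfl

/-- The full part with holomorphic `p`-forms. -/
theorem hol_rank_full {L : X.R} {L' : Y.R} {N : E} (hA : A.ρ N = mu X L) (hB : B.ρ N = mu Y L')
    (hc : Intertwines Φ X.c Y.c) (hX : Semipositive X L) (hY : Semipositive Y L') {p k : ℕ}
    (hk : p + k + 2 = n) (hK : L ^ (p + k) ≠ 0 ∨ KMap A B Φ L L' k p) {e : E} (he : e * e = e)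
    (hec : ∀ b, e * b = b * e)
    (he0 : ∀ x : E, (∀ h ∈ typ X p 0, A.ρ x h = 0) → e * x = 0) (S : Submodule E E) :
    rk S (e * A.L.p p) = rk S (e * B.L.p p) := by
  obtain ⟨S', h1, h2⟩ := rk_central S he hec
  have h0 := hol_rank A B Φ hΦ hA hB hc hX hY hk he hec he0 S
  rw [← h2, ← h2] at h0
  rw [← h2, ← h2]
  have hSX : ∀ x : S', (∀ h ∈ typ X p 0, A.ρ (x : E) h = 0) → (x : E) = 0 := by
    intro x hx
    rw [← h1 x x.2]
    exact he0 x hx
  have hSY : ∀ x : S', (∀ h ∈ typ Y p 0, B.ρ (x : E) h = 0) → (x : E) = 0 := by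
    intro x hx
    refine hSX x fun h hh => ?_
    apply Φ.φ.injective
    rw [hΦ, hx _ (mem_typ_phi Φ hh), map_zero]
  have g1 := finrank_KK S' A.L N p k
  have g2 := finrank_KK S' B.L N p k
  have g3 : finrank ℚ (KK S' A.L N p k) = finrank ℚ (KK S' B.L N p k) := by
    rcases hK with hK | ⟨a, b, k1, k2, k3, k4⟩
    · have hint := inter A B Φ hΦ hA hB
      have hK' := pow_ne_zero_iff hX hY hc hint (m := p + k) hk hK
      have bot : ∀ {Z : KRing n} (C : Act E Z) {M : Z.R}, C.ρ N = mu Z M → Semipositive Z M →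
          M ^ (p + k) ≠ 0 → (∀ x : S', (∀ h ∈ typ Z p 0, C.ρ (x : E) h = 0) → (x : E) = 0) →
          KK S' C.L N p k = ⊥ := by
        intro Z C M hC hZ hM hSZ
        rw [eq_bot_iff]
        intro x hx
        obtain ⟨g1, g2⟩ := (mem_KK S' _ _ _ _ _).1 hx
        rw [Submodule.mem_bot]
        refine Subtype.ext (hSZ x fun h hh => ?_)
        by_contra hne
        refine hM (hZ.rank p k (C.ρ (x : E) h) ?_ hne ?_)
        · have h3 := mem_of_typ (C.typ_mem' (x : E) hh) (m := p) (p := p) (q := 0) (by ring) rfl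
          rw [← C.rho_p, ← rho_mul, g1] at h3
          exact h3
        · rw [← rho_pow C hC, ← rho_mul, g2, map_zero]
          rfl
      rw [bot A hA hX hK hSX, bot B hB hY hK' hSY]
    · exact le_antisymm (KK_le A B Φ hΦ hA hB k1 k3 S' hSX)
        (KK_le B A (Pool.Agent.R929.DH.symm Φ) (symmPhi hΦ) hB hA k2 k4 S' hSY)
  omega

omit hΦ [IsSemisimpleRing E] in
theorem trace_eq (hΦ : ∀ a x, Φ.φ (A.ρ a x) = B.ρ a (Φ.φ x)) (a : E) :
    LinearMap.trace ℂ X.R (A.ρ a) = LinearMap.trace ℂ Y.R (B.ρ a) := by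
  have h : B.ρ a = Φ.φ.conj (A.ρ a) := by
    ext y
    rw [LinearEquiv.conj_apply_apply, hΦ, LinearEquiv.apply_symm_apply]
  rw [h, LinearMap.trace_conj']

/-- The second motive: the part with holomorphic two-forms, the classes of divisors, and the
second Betti number determine it. -/
theorem second (hT : LinearMap.trace ℂ X.R (dg X 2) = LinearMap.trace ℂ Y.R (dg Y 2))
    {e e0 : E} (he : e * e = e) (hec : ∀ b, e * b = b * e)
    (hS : ∀ S : Submodule E E, rk S (e * A.L.p 2) = rk S (e * B.L.p 2))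
    (h0c : ∀ b, e0 * b = b * e0)
    (h0t : ∀ a : E, ∃ q : ℚ, LinearMap.trace ℂ X.R (A.ρ (e0 * a)) =
      q * LinearMap.trace ℂ X.R (A.ρ (A.L.p 0)) ∧
        ∀ S : Submodule E E, tS S (e0 * a) = q * tS S (A.L.p 0))
    (h0 : LinearMap.trace ℂ X.R (A.ρ (A.L.p 0)) ≠ 0)
    (hLX : (1 - e0) * ((1 - e) * A.L.p 2) = 0) (hLY : (1 - e0) * ((1 - e) * B.L.p 2) = 0)
    (S : Submodule E E) : tS S (A.L.p 2) = tS S (B.L.p 2) := by
  have idem : ∀ {q : E}, q * q = q → (e * q) * (e * q) = e * q := by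
    intro q h1
    calc e * q * (e * q) = e * (q * e) * q := by simp only [mul_assoc]
      _ = (e * e) * (q * q) := by rw [← hec]; simp only [mul_assoc]
      _ = _ := by rw [he, h1]
  have hi := idem (A.L.p_self 2)
  have hj := idem (B.L.p_self 2)
  obtain ⟨a, b, hab, hba⟩ := idem_equiv (E := E) hi hj fun S => by
    rw [tS_rk S hi, tS_rk S hj, hS]
  have hX' : (1 - e0) * A.L.p 2 = (1 - e0) * a * b := by
    rw [sub_mul 1 e, one_mul, mul_sub, sub_eq_zero] at hLX
    rw [hLX, mul_assoc, hab]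
  have hY' : (1 - e0) * B.L.p 2 = (1 - e0) * b * a := by
    rw [sub_mul 1 e, one_mul, mul_sub, sub_eq_zero] at hLY
    rw [hLY, mul_assoc, hba]
  have hc1 : ∀ x : E, (1 - e0) * x = x * (1 - e0) := fun x => by
    rw [sub_mul, mul_sub, one_mul, mul_one, h0c]
  have hcomm : (1 - e0) * b * a = b * ((1 - e0) * a) := by rw [hc1 b, mul_assoc]
  have key : ∀ {G : Type} [AddCommGroup G] (t : E →+ G), (∀ x y, t (x * y) = t (y * x)) →
      t ((1 - e0) * A.L.p 2) = t ((1 - e0) * B.L.p 2) := by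
    intro G _ t ht
    rw [hX', hY', hcomm, ht]
  have split : ∀ {G : Type} [AddCommGroup G] (t : E →+ G) (x : E),
      t x = t (e0 * x) + t ((1 - e0) * x) := by
    intro G _ t x
    rw [← map_add, ← add_mul, add_sub_cancel, one_mul]
  obtain ⟨q, hq1, hq2⟩ := h0t (A.L.p 2)
  obtain ⟨q', hq1', hq2'⟩ := h0t (B.L.p 2)
  let t : E →+ ℂ := ((LinearMap.trace ℂ X.R).toAddMonoidHom).comp A.ρ.toAddMonoidHom
  have htt : ∀ x, t x = LinearMap.trace ℂ X.R (A.ρ x) := fun x => rfl
  have ht : ∀ x y, t (x * y) = t (y * x) := by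
    intro x y
    rw [htt, htt, map_mul A.ρ, map_mul A.ρ]
    exact LinearMap.trace_mul_comm ℂ (A.ρ x) (A.ρ y)
  have e1 : t (A.L.p 2) = t (B.L.p 2) := by
    rw [htt, htt, trace_eq A B Φ hΦ (B.L.p 2), A.rho_p, B.rho_p, hT]
  rw [split t (A.L.p 2), split t (B.L.p 2), key t ht, htt (e0 * A.L.p 2), htt (e0 * B.L.p 2), hq1,
    hq1'] at e1
  have e2 := mul_right_cancel₀ h0 (add_right_cancel e1)
  have e3 : q = q' := by exact_mod_cast e2
  rw [split (tS S) (A.L.p 2), split (tS S) (B.L.p 2), key (tS S) (tS_mul S), hq2 S, hq2' S, e3]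

omit hΦ in
/-- The trace on degree two. -/
theorem trace_two (Z : KRing n) : LinearMap.trace ℂ Z.R (dg Z 2) =
    (Z.h 2 0 : ℂ) + Z.h 1 1 + Z.h 0 2 := by
  have hpr : ∀ p q : ℤ, LinearMap.trace ℂ Z.R (pr Z p q) = Z.h p q := by
    intro p q
    have hp : LinearMap.IsProj (Z.H (p, q)) (pr Z p q) := by
      constructor
      · exact fun x => pr_mem Z p q x
      · intro x hx
        unfold pr
        rw [diag_of Z _ hx, if_pos rfl, one_smul]
    exact hp.trace
  have h1 : dg Z 2 = pr Z 2 0 + pr Z 1 1 + pr Z 0 2 := by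
    refine hom_ext Z fun p q x hx => ?_
    rw [LinearMap.add_apply, LinearMap.add_apply, dg_of Z hx]
    unfold pr
    rw [diag_of Z _ hx, diag_of Z _ hx, diag_of Z _ hx]
    by_cases hne : x = 0
    · rw [hne]
      simp
    have hr : ¬ (p < 0 ∨ q < 0 ∨ (n : ℤ) < p ∨ (n : ℤ) < q) := fun h => hne (zero_of Z h hx)
    by_cases h2 : p + q = (2 : ℕ)
    · rw [if_pos h2]
      have h3 : p = 0 ∨ p = 1 ∨ p = 2 := by push_cast at h2; omega
      rcases h3 with h3 | h3 | h3
      · have h4 : q = 2 := by push_cast at h2; omega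
        subst h3; subst h4
        simp
      · have h4 : q = 1 := by push_cast at h2; omega
        subst h3; subst h4
        simp
      · have h4 : q = 0 := by push_cast at h2; omega
        subst h3; subst h4
        simp
    · rw [if_neg h2, if_neg, if_neg, if_neg]
      · simp
      all_goals
        intro h3
        rw [Prod.mk.injEq] at h3
        apply h2
        push_cast
        omega
  rw [h1, map_add, map_add, hpr, hpr, hpr]

end main

end Pool.Agent.P8H30.OR
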