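import Pool.Agent.P8H30.OR.Two

/-!
# Classes of defect at most two: comparison of the primitive parts of lowest perversity
-/

set_option autoImplicit false
set_option linter.unusedSectionVars false

open scoped ComplexConjugate
open Module Pool.Agent.W539.DI Pool.Agent.R941.OH Pool.Agent.R929.DH Pool.Agent.P8H56.DH

namespace Pool.Agent.P8H30.OR

section basic

variable {E : Type} [Ring E] [Algebra ℚ E] [FiniteDimensional ℚ E] {n : ℕ} {X : KRing n}
  (A : Act E X)

/-- the projector to the degrees of the parity of `e` -/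
noncomputable def par (L : Lef E n) (e : ℕ) : E := L.pD (fun j => (j + e) % 2 = 0)

theorem rho_mul (a b : E) (x : X.R) : A.ρ (a * b) x = A.ρ a (A.ρ b x) := by
  rw [map_mul, Module.End.mul_apply]

theorem rho_par (e : ℕ) {p q : ℤ} {x : X.R} (hx : x ∈ typ X p q) :
    A.ρ (par A.L e) x = if Even (p - q + e) then x else 0 := by
  classical
  have hx' := hx
  unfold typ at hx'
  refine Submodule.iSup_induction (p := fun k : ℤ => X.H (p + k, q + k))
    (motive := fun x => A.ρ (par A.L e) x = if Even (p - q + e) then x else 0) hx' ?_ ?_ ?_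
  · intro k x hx
    by_cases hne : x = 0
    · rw [hne, map_zero]
      split_ifs <;> rfl
    have hr : ¬ (p + k < 0 ∨ q + k < 0 ∨ (n : ℤ) < p + k ∨ (n : ℤ) < q + k) :=
      fun h => hne (zero_of X h hx)
    obtain ⟨m, hm⟩ : ∃ m : ℕ, p + k + (q + k) = m := ⟨(p + k + (q + k)).toNat, by omega⟩
    have h1 : A.ρ (A.L.p m) x = x := by rw [A.rho_p, dg_of X hx, if_pos hm]
    have h2 := A.L.pD_p (fun j => (j + e) % 2 = 0) (show m ≤ 2 * n by omega)
    have h3 : A.ρ (par A.L e) x = A.ρ (par A.L e * A.L.p m) x := by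
      rw [rho_mul, h1]
    rw [h3]
    unfold par
    rw [h2]
    by_cases h4 : Even (p - q + e)
    · rw [if_pos h4, if_pos, h1]
      rw [Int.even_iff] at h4
      omega
    · rw [if_neg h4, if_neg]
      · rw [map_zero]
        rfl
      · rw [Int.even_iff] at h4
        omega
  · rw [map_zero]
    split_ifs <;> rfl
  · intro x y hx hy
    rw [map_add, hx, hy]
    split_ifs
    · rfl
    · simp

theorem par_p (L : Lef E n) (e j : ℕ) : par L e * L.p j = if (j + e) % 2 = 0 then L.p j else 0 := by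
  rcases Nat.lt_or_ge (2 * n) j with h | h
  · rw [p_big' L h, mul_zero]
    split_ifs <;> rfl
  · exact L.pD_p _ h

variable {L : X.R} {N : E} (hA : A.ρ N = mu X L)

include hA

theorem rho_N (x : X.R) : A.ρ N x = L * x := by
  rw [hA]
  rfl

theorem rho_pow (k : ℕ) (x : X.R) : A.ρ (N ^ k) x = L ^ k * x := by
  rw [map_pow, hA, mu_pow]

theorem N_p (hm : L ∈ X.H (1, 1)) (j : ℕ) : N * A.L.p j = A.L.p (j + 2) * N := by
  apply A.inj
  rw [map_mul, map_mul, hA, A.rho_p, A.rho_p, dg_mu X hm]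

theorem Npow_p (hm : L ∈ X.H (1, 1)) (k j : ℕ) :
    N ^ k * A.L.p j = A.L.p (j + 2 * k) * N ^ k := by
  induction k generalizing j with
  | zero => simp
  | succ k ih =>
    rw [pow_succ', mul_assoc, ih, ← mul_assoc, N_p A hA hm, mul_assoc]
    congr 2

theorem N_om (hm : L ∈ X.H (1, 1)) : N * A.L.o = A.L.o * N := by
  apply A.inj
  have ho : A.ρ A.L.o = mu X X.ω := congrArg (fun l : Lef (Module.End ℂ X.R) n => l.o) A.hL
  rw [map_mul, map_mul, hA, ho]
  ext x
  show L * (X.ω * x) = X.ω * (L * x)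
  rw [← mul_assoc, ← mul_assoc, X.central hm]

theorem Npow_om (hm : L ∈ X.H (1, 1)) (k : ℕ) : N ^ k * A.L.o = A.L.o * N ^ k :=
  (show Commute N A.L.o from N_om A hA hm).pow_left k

omit hA in
theorem rho_o (x : X.R) : A.ρ A.L.o x = X.ω * x := by
  have ho : A.ρ A.L.o = mu X X.ω := congrArg (fun l : Lef (Module.End ℂ X.R) n => l.o) A.hL
  rw [ho]
  rfl

/-- Selfadjoint or skew elements. -/
theorem rk_dual' (S : Submodule E E) {M : E} {κ : ℕ}
    (hM : ∀ j, M * A.L.p j = A.L.p (j + 2 * κ) * M)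
    (hadj : (∀ x y, F X (A.ρ M x) y = F X x (A.ρ M y)) ∨
      (∀ x y, F X (A.ρ M x) y = -F X x (A.ρ M y))) {j j' : ℕ}
    (hj : j + j' + 2 * κ = 2 * n) : rk S (M * A.L.p j) = rk S (M * A.L.p j') := by
  rcases hadj with h | h
  · exact rk_dual A S hM (ε := 1) (by simp) (by simp) (by simpa using h) hj
  · refine rk_dual A S hM (ε := -1) (by simp) (by simp) (fun x y => ?_) hj
    rw [neg_one_mul, map_neg, LinearMap.neg_apply, h]
    have := F_smul_right X (-1) x (A.ρ M y)
    simp only [neg_one_smul, map_neg, map_one, neg_one_mul] at this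
    exact this.symm

theorem adj_pow (hm : L ∈ X.H (1, 1)) (hb : X.bar L = L) (k : ℕ) :
    (∀ x y, F X (A.ρ (N ^ k) x) y = F X x (A.ρ (N ^ k) y)) ∨
      (∀ x y, F X (A.ρ (N ^ k) x) y = -F X x (A.ρ (N ^ k) y)) := by
  rcases neg_one_pow_eq_or ℂ k with h | h
  · left
    intro x y
    rw [rho_pow A hA, rho_pow A hA, F_pow hm hb, h, one_mul]
  · right
    intro x y
    rw [rho_pow A hA, rho_pow A hA, F_pow hm hb, h, neg_one_mul]

theorem rk_dual_pow (S : Submodule E E) (hm : L ∈ X.H (1, 1)) (hb : X.bar L = L) {κ j j' : ℕ}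
    (hj : j + j' + 2 * κ = 2 * n) : rk S (N ^ κ * A.L.p j) = rk S (N ^ κ * A.L.p j') :=
  rk_dual' A hA S (Npow_p A hA hm κ) (adj_pow A hA hm hb κ) hj

end basic

section prim

variable {E : Type} [Ring E] [Algebra ℚ E] [FiniteDimensional ℚ E] {n : ℕ} (S : Submodule E E)

/-- The classes of degree `m` killed by `N ^ (k + 1)`. -/
noncomputable def PP (L : Lef E n) (N : E) (m k : ℕ) : Submodule ℚ S :=
  LinearMap.range (op S (L.p m)) ⊓ LinearMap.ker (op S (N ^ (k + 1)))

theorem mem_rg (L : Lef E n) (m : ℕ) (x : S) :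
    x ∈ LinearMap.range (op S (L.p m)) ↔ L.p m * (x : E) = x := by
  constructor
  · rintro ⟨y, rfl⟩
    rw [coe_op, ← mul_assoc, L.p_self]
  · intro h
    exact ⟨x, Subtype.ext h⟩

theorem mem_PP (L : Lef E n) (N : E) (m k : ℕ) (x : S) :
    x ∈ PP S L N m k ↔ L.p m * (x : E) = x ∧ N ^ (k + 1) * (x : E) = 0 := by
  unfold PP
  rw [Submodule.mem_inf, mem_rg, LinearMap.mem_ker]
  refine and_congr_right fun _ => ?_
  rw [← Subtype.coe_inj, coe_op]
  rfl

theorem finrank_PP (L : Lef E n) (N : E) (m k : ℕ) :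
    rk S (N ^ (k + 1) * L.p m) + finrank ℚ (PP S L N m k) = rk S (L.p m) := by
  let g : LinearMap.range (op S (L.p m)) →ₗ[ℚ] S :=
    (op S (N ^ (k + 1))) ∘ₗ (LinearMap.range (op S (L.p m))).subtype
  have h1 := LinearMap.finrank_range_add_finrank_ker g
  have h2 : LinearMap.range g = LinearMap.range (op S (N ^ (k + 1) * L.p m)) := by
    rw [LinearMap.range_comp, Submodule.range_subtype, op_mul, LinearMap.range_comp]
  have h3 : finrank ℚ (LinearMap.ker g) = finrank ℚ (PP S L N m k) := by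
    have : LinearMap.ker g = (PP S L N m k).comap (LinearMap.range (op S (L.p m))).subtype := by
      ext x
      simp only [g, LinearMap.mem_ker, LinearMap.comp_apply, Submodule.subtype_apply,
        Submodule.mem_comap, PP, Submodule.mem_inf, SetLike.coe_mem, true_and]
    rw [this]
    exact (Submodule.comapSubtypeEquivOfLe inf_le_left).finrank_eq
  rw [h2, h3] at h1
  exact h1

end prim

section main

variable {E : Type} [Ring E] [Algebra ℚ E] [FiniteDimensional ℚ E] {n : ℕ} {X Y : KRing n}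

theorem par_eq (A : Act E X) (B : Act E Y) (Φ : FM X Y)
    (hΦ : ∀ a x, Φ.φ (A.ρ a x) = B.ρ a (Φ.φ x)) (e : ℕ) : par A.L e = par B.L e := by
  classical
  apply A.inj
  refine hom_ext X fun p q x hx => ?_
  apply Φ.φ.injective
  rw [hΦ (par B.L e), rho_par B e (mem_typ_phi Φ (mem_typ X hx)), rho_par A e (mem_typ X hx)]
  split_ifs
  · rfl
  · rw [map_zero]

/-- The sign of the form on the subspace where it is negative. -/
theorem neg_key (A : Act E X) {L : X.R} {N : E} (hA : A.ρ N = mu X L) (hX : DefectTwo X L)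
    (S : Submodule E E) {m k : ℕ} (hk : m + k + 2 = n) {x y : S} (hx : x ∈ PP S A.L N m k)
    (hy : y ∈ PP S A.L N m k) {a b : ℤ} {h : X.R} (hh : h ∈ typ X a b) {p q : ℤ}
    (hpq : p + q = m) (hd : p - q = a - b)
    (h0 : 0 ≤ sg p q * bf X L k
      (A.ρ ((1 - A.L.o * A.L.o) * (x : E) + A.L.o * (y : E)) h)
      (A.ρ ((1 - A.L.o * A.L.o) * (x : E) + A.L.o * (y : E)) h)) :
    A.ρ (x : E) h = 0 ∧ A.ρ (y : E) h = 0 := by
  have key : ∀ {x : S}, x ∈ PP S A.L N m k →
      A.ρ (x : E) h ∈ X.H (p, q) ∧ L ^ (k + 1) * A.ρ (x : E) h = 0 := by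
    intro x hx
    obtain ⟨h1, h2⟩ := (mem_PP S _ _ _ _ _).1 hx
    constructor
    · have h3 := mem_of_typ (A.typ_mem' (x : E) hh) hpq hd
      rw [← A.rho_p, ← rho_mul, h1] at h3
      exact h3
    · rw [← rho_pow A hA, ← rho_mul, h2, map_zero]
      rfl
  obtain ⟨x1, x2⟩ := key hx
  obtain ⟨y1, y2⟩ := key hy
  have e1 : A.ρ ((1 - A.L.o * A.L.o) * (x : E) + A.L.o * (y : E)) h =
      (A.ρ (x : E) h - X.ω * (X.ω * A.ρ (x : E) h)) + X.ω * A.ρ (y : E) h := by
    rw [sub_mul, one_mul, map_add, map_sub, LinearMap.add_apply, LinearMap.sub_apply, mul_assoc,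
      rho_mul, rho_mul, rho_mul, rho_o, rho_o, rho_o]
  rw [e1, neg_side hX.mem hX.real hk hpq x1 y1] at h0
  obtain ⟨gx, gx'⟩ := rel_q2 hX (k := k) (by omega) x1 x2
  obtain ⟨gy, gy'⟩ := rel_q2 hX (k := k) (by omega) y1 y2
  constructor
  · by_contra hne
    have := gx' hne
    nlinarith
  · by_contra hne
    have := gy' hne
    nlinarith

/-- The conditions which define the subspace where the form is nonnegative. -/
theorem pos_key (B : Act E Y) {L : Y.R} {N : E} (hB : B.ρ N = mu Y L) (hY : DefectTwo Y L)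
    {m k : ℕ} (hk : m + k + 2 = n) {x w w' : E} (h0 : N ^ (k + 1) * x = 0)
    (hw : N ^ k * B.L.o * B.L.p (m + 2) * x = N ^ (k + 1) * B.L.p (m + 2) * w)
    (hw' : N ^ k * (B.L.p (m + 4) - B.L.o * B.L.o * B.L.p m) * x =
      N ^ (k + 1) * B.L.p (m + 2) * w') {a b : ℤ} {h : Y.R} (hh : h ∈ typ Y a b) {p q : ℤ}
    (hpq : p + q = m) (hd : p - q = a - b) :
    0 ≤ sg p q * bf Y L k (B.ρ x h) (B.ρ x h) := by
  set z := B.ρ x h with hz
  have hzt : z ∈ typ Y a b := B.typ_mem' x hh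
  have hL0 : L ^ (k + 1) * z = 0 := by
    rw [hz, ← rho_pow B hB, ← rho_mul, h0, map_zero]
    rfl
  have hLd : ∀ j : ℕ, L ^ (k + 1) * dg Y j z = 0 := fun j => by
    rw [← dg_pow hY.mem, hL0, map_zero]
  have e2 : L ^ k * (Y.ω * dg Y (m + 2) z) = L ^ (k + 1) * dg Y (m + 2) (B.ρ w h) := by
    have h1 := congrArg (fun e => B.ρ e h) hw
    simp only [rho_mul] at h1
    rwa [rho_pow B hB, rho_pow B hB, B.rho_p, rho_o] at h1
  have e3 : L ^ k * dg Y (m + 4) z =
      L ^ k * (Y.ω * (Y.ω * dg Y m z)) + L ^ (k + 1) * dg Y (m + 2) (B.ρ w' h) := by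
    have h1 := congrArg (fun e => B.ρ e h) hw'
    simp only [rho_mul, map_sub, LinearMap.sub_apply, rho_pow B hB, B.rho_p, rho_o] at h1
    rw [← hz, mul_sub, sub_eq_iff_eq_add] at h1
    rw [h1, add_comm]
  rw [pos_side hY.mem hY.real hk (fun j hj => low_zero hY hk hzt hL0 hj)
    (dg_typ_zero hzt (by intro i; push_cast; omega))
    (dg_typ_zero hzt (by intro i; push_cast; omega)) _ (k + 1) e3 (hLd m)]
  have g1 := (rel_q2 hY (k := k) (by omega) (mem_of_typ hzt hpq hd) (hLd m)).1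
  have g2 : 0 ≤ sg (p + 1) (q + 1) * bf Y L k (dg Y (m + 2) z) (dg Y (m + 2) z) :=
    two_pos hY (by push_cast; omega) (mem_of_typ hzt (by push_cast; omega) (by omega)) (hLd _) e2
  have g3 : sg (p + 1) (q + 1) = sg p q := by
    have := sg_pred (p + 1) (q + 1)
    rw [add_sub_cancel_right, add_sub_cancel_right] at this
    exact this.symm
  rw [g3] at g2
  nlinarith

variable (A : Act E X) (B : Act E Y) (Φ : FM X Y) (hΦ : ∀ a x, Φ.φ (A.ρ a x) = B.ρ a (Φ.φ x))
  {L : X.R} {L' : Y.R} {N : E} (hA : A.ρ N = mu X L) (hB : B.ρ N = mu Y L')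
  (hc : Intertwines Φ X.c Y.c)

include hΦ hA hB in
theorem inter : Intertwines Φ L L' := by
  intro x
  rw [← rho_N A hA, hΦ, rho_N B hB]

include hΦ hA hB hc

theorem ineq_two (hX : DefectTwo X L) (hY : DefectTwo Y L') (S : Submodule E E) {m k : ℕ}
    (hk : m + k + 2 = n) : finrank ℚ (PP S A.L N m k) ≤ finrank ℚ (PP S B.L N m k) := by
  have hint := inter A B Φ hΦ hA hB
  have hpar := par_eq A B Φ hΦ m
  set K : Submodule ℚ S := LinearMap.ker (op S (N ^ (k + 1))) ⊓
    LinearMap.ker (op S (1 - par A.L m)) with hK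
  have memK : ∀ x : S, x ∈ K ↔ N ^ (k + 1) * (x : E) = 0 ∧ par A.L m * (x : E) = x := by
    intro x
    rw [hK, Submodule.mem_inf, LinearMap.mem_ker, LinearMap.mem_ker, ← Subtype.coe_inj,
      ← Subtype.coe_inj, coe_op, coe_op, sub_mul, one_mul]
    refine and_congr Iff.rfl ?_
    show (x : E) - par A.L m * (x : E) = 0 ↔ _
    rw [sub_eq_zero, eq_comm]
  -- elements of odd degree
  have hodd : ∀ {a b : ℤ} {h : X.R}, h ∈ typ X a b → (¬ ∃ p q : ℤ, p + q = m ∧ p - q = a - b) →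
      ∀ x : E, par A.L m * x = x → A.ρ x h = 0 := by
    intro a b h hh hno x hx
    rw [← hx, rho_mul, rho_par A m (A.typ_mem' x hh), if_neg]
    rintro ⟨t, ht⟩
    exact hno ⟨t - m + b + m - b, m - t, by omega, by omega⟩
  have hparP : ∀ x : S, x ∈ PP S A.L N m k → par A.L m * (x : E) = x := by
    intro x hx
    obtain ⟨h1, -⟩ := (mem_PP S _ _ _ _ _).1 hx
    rw [← h1, ← mul_assoc, par_p, if_pos (by omega)]
  have hzero : ∀ x : E, (∀ (a b : ℤ) (h : X.R), h ∈ typ X a b → A.ρ x h = 0) → x = 0 :=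
    fun x hx => A.zero_of_typ hx
  -- the negative part
  obtain ⟨U, hU1, hU2⟩ := image_two (PP S A.L N m k) (op S (1 - A.L.o * A.L.o)) (op S A.L.o)
    (by
      intro x hx y hy hxy
      have e0 : (1 - A.L.o * A.L.o) * (x : E) + A.L.o * (y : E) = 0 := congrArg Subtype.val hxy
      have key : ∀ (a b : ℤ) (h : X.R), h ∈ typ X a b → A.ρ (x : E) h = 0 ∧ A.ρ (y : E) h = 0 := by
        intro a b h hh
        by_cases hpq : ∃ p q : ℤ, p + q = m ∧ p - q = a - b
        · obtain ⟨p, q, h1, h2⟩ := hpq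
          refine neg_key A hA hX S hk hx hy hh h1 h2 ?_
          rw [e0, map_zero, LinearMap.zero_apply]
          exact le_of_eq ((isHerm (X := X) (w := L) (k := k) (sg p q)).zero_left 0).symm
        · exact ⟨hodd hh hpq _ (hparP x hx), hodd hh hpq _ (hparP y hy)⟩
      exact ⟨Subtype.ext (hzero _ fun a b h hh => (key a b h hh).1),
        Subtype.ext (hzero _ fun a b h hh => (key a b h hh).2)⟩)
  -- the nonnegative part
  set R : Submodule ℚ S := LinearMap.range (op S (N ^ (k + 1) * B.L.p (m + 2))) with hR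
  set W : Submodule ℚ S := LinearMap.range (op S (B.L.p (m + 4 + 2 * k))) with hW
  set f₁ := op S (N ^ k * B.L.o * B.L.p (m + 2)) with hf₁
  set f₂ := op S (N ^ k * (B.L.p (m + 4) - B.L.o * B.L.o * B.L.p m)) with hf₂
  have hNp := Npow_p B hB hY.mem
  have hRW : R ≤ W := by
    rintro _ ⟨x, rfl⟩
    rw [hW, mem_rg, coe_op, ← mul_assoc, hNp, ← mul_assoc,
      show m + 2 + 2 * (k + 1) = m + 4 + 2 * k by ring, B.L.p_self]
  have hop : B.L.o * B.L.p (m + 2) = B.L.p (m + 4) * B.L.o := B.L.op (m + 2)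
  have hoop : B.L.o * B.L.o * B.L.p m = B.L.p (m + 4) * (B.L.o * B.L.o) := by
    rw [mul_assoc, B.L.op m, ← mul_assoc, hop, mul_assoc]
  have hfW₁ : ∀ x ∈ K, f₁ x ∈ W := by
    intro x _
    rw [hW, mem_rg, hf₁, coe_op, ← mul_assoc]
    congr 1
    rw [mul_assoc (N ^ k), hop, ← mul_assoc (N ^ k), hNp, ← mul_assoc, ← mul_assoc, B.L.p_self]
  have hfW₂ : ∀ x ∈ K, f₂ x ∈ W := by
    intro x _
    rw [hW, mem_rg, hf₂, coe_op, ← mul_assoc]
    congr 1
    rw [hoop, mul_sub, ← mul_assoc (N ^ k), hNp, mul_assoc (B.L.p (m + 4 + 2 * k)), ← mul_sub,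
      ← mul_assoc, B.L.p_self]
  have hdim := cond_two K W R W R hRW hRW f₁ f₂ hfW₁ hfW₂
  have hdis := finrank_disj U (K ⊓ R.comap f₁ ⊓ R.comap f₂) K
    (by
      intro z hz
      obtain ⟨x, hx, y, hy, rfl⟩ := hU2 z hz
      obtain ⟨x1, x2⟩ := (mem_PP S _ _ _ _ _).1 hx
      obtain ⟨y1, y2⟩ := (mem_PP S _ _ _ _ _).1 hy
      rw [memK]
      have hNo := Npow_om A hA hX.mem (k + 1)
      show N ^ (k + 1) * ((1 - A.L.o * A.L.o) * (x : E) + A.L.o * (y : E)) = 0 ∧
        par A.L m * ((1 - A.L.o * A.L.o) * (x : E) + A.L.o * (y : E)) =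
          (1 - A.L.o * A.L.o) * (x : E) + A.L.o * (y : E)
      have ho1 : A.L.o * A.L.p m = A.L.p (m + 2) * A.L.o := A.L.op m
      have ho2 : A.L.o * A.L.p (m + 2) = A.L.p (m + 4) * A.L.o := A.L.op (m + 2)
      have ex : A.L.o * A.L.o * (x : E) = A.L.p (m + 4) * (A.L.o * (A.L.o * (x : E))) := by
        conv_lhs => rw [← x1]
        rw [mul_assoc, ← mul_assoc A.L.o (A.L.p m), ho1, mul_assoc, ← mul_assoc A.L.o (A.L.p _),
          ho2, mul_assoc]
      have ey : A.L.o * (y : E) = A.L.p (m + 2) * (A.L.o * (y : E)) := by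
        conv_lhs => rw [← y1]
        rw [← mul_assoc A.L.o (A.L.p m), ho1, mul_assoc]
      constructor
      · rw [mul_add, sub_mul, one_mul, mul_sub, x2, mul_assoc A.L.o, ← mul_assoc (N ^ (k + 1)),
          hNo, mul_assoc, ← mul_assoc (N ^ (k + 1)), hNo, mul_assoc, x2, ← mul_assoc (N ^ (k + 1)),
          hNo, mul_assoc, y2]
        simp
      · rw [mul_add, sub_mul, one_mul, mul_sub, hparP x hx, ex, ← mul_assoc (par A.L m), par_p,
          if_pos (by omega), ey, ← mul_assoc (par A.L m), par_p, if_pos (by omega)])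
    (fun z hz => hz.1.1)
    (by
      intro z hz hz2
      obtain ⟨x, hx, y, hy, hxy⟩ := hU2 z hz
      have e0 : (z : E) = (1 - A.L.o * A.L.o) * (x : E) + A.L.o * (y : E) :=
        congrArg Subtype.val hxy
      obtain ⟨⟨hzK, ⟨w, hw⟩⟩, ⟨w', hw'⟩⟩ := hz2
      obtain ⟨k1, k2⟩ := (memK z).1 hzK
      have hw1 : N ^ k * B.L.o * B.L.p (m + 2) * (z : E) =
          N ^ (k + 1) * B.L.p (m + 2) * (w : E) := (congrArg Subtype.val hw).symm
      have hw2 : N ^ k * (B.L.p (m + 4) - B.L.o * B.L.o * B.L.p m) * (z : E) =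
          N ^ (k + 1) * B.L.p (m + 2) * (w' : E) := (congrArg Subtype.val hw').symm
      refine Subtype.ext (hzero _ fun a b h hh => ?_)
      by_cases hpq : ∃ p q : ℤ, p + q = m ∧ p - q = a - b
      · obtain ⟨p, q, h1, h2⟩ := hpq
        have g1 := pos_key B hB hY hk k1 hw1 hw2 (mem_typ_phi Φ hh) h1 h2
        rw [← hΦ, bf_iso hc hint, e0] at g1
        obtain ⟨g2, g3⟩ := neg_key A hA hX S hk hx hy hh h1 h2 g1
        rw [e0, sub_mul, one_mul, map_add, map_sub, LinearMap.add_apply, LinearMap.sub_apply,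
          mul_assoc, rho_mul, rho_mul, rho_mul, g2, g3]
        simp
      · exact hodd hh hpq _ k2)
  have hW' : finrank ℚ W = rk S (B.L.p m) := rk_sym' B S (by omega)
  have hR' : finrank ℚ R = rk S (N ^ (k + 1) * B.L.p m) :=
    rk_dual_pow B hB S hY.mem hY.real (by omega)
  have hPP := finrank_PP S B.L N m k
  omega

end main

end Pool.Agent.P8H30.OR
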