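import Pool.Agent.R941.OH.Core

/-!
# Ranks of the elements of a ring of correspondences on its left ideals
-/

set_option autoImplicit false
set_option linter.unusedSectionVars false

open scoped ComplexConjugate
open Module Pool.Agent.W539.DI Pool.Agent.R941.OH

namespace Pool.Agent.P8H30.OR

section rk

variable {E : Type} [Ring E] [Algebra ℚ E] [FiniteDimensional ℚ E] (S : Submodule E E)

/-- the action on a left ideal -/
noncomputable abbrev op (a : E) : S →ₗ[ℚ] S := Algebra.lsmul ℚ ℚ S a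

theorem op_mul (a b : E) : op S (a * b) = op S a ∘ₗ op S b := map_mul (Algebra.lsmul ℚ ℚ S) a b

theorem op_apply (a : E) (x : S) : op S a x = a • x := rfl

theorem coe_op (a : E) (x : S) : ((op S a x : S) : E) = a * (x : E) := rfl

/-- the rank of an element on a left ideal -/
noncomputable def rk (a : E) : ℕ := finrank ℚ (LinearMap.range (op S a))

theorem tS_rk {e : E} (he : e * e = e) : tS S e = rk S e := tS_idem S he

theorem rk_zero : rk S 0 = 0 := by
  unfold rk
  have : op S (0 : E) = 0 := map_zero (Algebra.lsmul ℚ ℚ S)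
  rw [this, LinearMap.range_zero, finrank_bot]

theorem rk_mul_le_left (a b : E) : rk S (a * b) ≤ rk S a := by
  unfold rk
  rw [op_mul]
  exact Submodule.finrank_mono (LinearMap.range_comp_le_range _ _)

theorem rk_mul_le_right (a b : E) : rk S (a * b) ≤ rk S b := by
  unfold rk
  rw [op_mul, LinearMap.range_comp]
  exact Submodule.finrank_map_le _ _

theorem rk_unit_mul {u v : E} (h : v * u = 1) (a : E) : rk S (u * a) = rk S a := by
  refine le_antisymm (rk_mul_le_right S u a) ?_
  conv_lhs => rw [← one_mul a, ← h, mul_assoc]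
  exact rk_mul_le_right S v (u * a)

theorem rk_mul_unit {u v : E} (h : u * v = 1) (a : E) : rk S (a * u) = rk S a := by
  refine le_antisymm (rk_mul_le_left S a u) ?_
  conv_lhs => rw [← mul_one a, ← h, ← mul_assoc]
  exact rk_mul_le_left S (a * u) v

/-- If `a` is injective on the image of `b` then `a b` has the rank of `b`. -/
theorem rk_mul_of_inj {a b : E} (h : ∀ x : S, a * (b * (x : E)) = 0 → b * (x : E) = 0) :
    rk S (a * b) = rk S b := by
  refine le_antisymm (rk_mul_le_right S a b) ?_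
  unfold rk
  rw [op_mul, LinearMap.range_comp]
  have hinj : Function.Injective ((op S a).domRestrict (LinearMap.range (op S b))) := by
    rw [injective_iff_map_eq_zero]
    rintro ⟨_, ⟨x, rfl⟩⟩ hx
    apply Subtype.ext
    apply Subtype.ext
    exact h x (congrArg Subtype.val hx)
  have h1 := LinearMap.finrank_range_of_inj hinj
  rw [LinearMap.range_domRestrict] at h1
  exact h1.symm.le

/-- Rank of a sum of two elements which are separated by orthogonal idempotents. -/
theorem rk_add {a b e e' f f' : E} (ha : e * a = a) (haf : a * f = a) (hb : e' * b = b)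
    (hbf : b * f' = b) (hee : e * e' = 0) (haf' : a * f' = 0) (hbf' : b * f = 0) :
    rk S (a + b) = rk S a + rk S b := by
  unfold rk
  have h1 : LinearMap.range (op S (a + b)) = LinearMap.range (op S a) ⊔ LinearMap.range (op S b) := by
    apply le_antisymm
    · rintro _ ⟨x, rfl⟩
      have : op S (a + b) x = op S a x + op S b x := by
        simp only [op_apply, add_smul]
      rw [this]
      exact Submodule.add_mem_sup ⟨x, rfl⟩ ⟨x, rfl⟩
    · refine sup_le ?_ ?_
      · rintro _ ⟨x, rfl⟩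
        refine ⟨f • x, ?_⟩
        show (a + b) • (f • x) = a • x
        rw [← mul_smul, add_mul, haf, hbf', add_zero]
      · rintro _ ⟨x, rfl⟩
        refine ⟨f' • x, ?_⟩
        show (a + b) • (f' • x) = b • x
        rw [← mul_smul, add_mul, haf', hbf, zero_add]
  have h2 : LinearMap.range (op S a) ⊓ LinearMap.range (op S b) = ⊥ := by
    rw [eq_bot_iff]
    rintro y ⟨⟨x, hx⟩, ⟨x', hx'⟩⟩
    rw [Submodule.mem_bot]
    have g1 : e • y = y := by
      rw [← hx]
      show e • (a • x) = a • x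
      rw [← mul_smul, ha]
    have g2 : e • y = 0 := by
      rw [← hx']
      show e • (b • x') = 0
      rw [← hb, ← mul_smul, ← mul_assoc, hee, zero_mul, zero_smul]
    rw [← g1, g2]
  rw [h1]
  have h3 := Submodule.finrank_sup_add_finrank_inf_eq (LinearMap.range (op S a))
    (LinearMap.range (op S b))
  rw [h2, finrank_bot, add_zero] at h3
  exact h3

variable {n : ℕ}

theorem p_sum_p (L : Lef E n) (T : Finset ℕ) (j : ℕ) :
    (∑ i ∈ T, L.p i) * L.p j = if j ∈ T then L.p j else 0 := by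
  rw [Finset.sum_mul]
  split_ifs with h
  · rw [Finset.sum_eq_single_of_mem j h (fun i _ hi => L.p_ne hi), L.p_self]
  · exact Finset.sum_eq_zero fun i hi => L.p_ne fun hij => h (hij ▸ hi)

theorem p_p_sum (L : Lef E n) (T : Finset ℕ) (j : ℕ) :
    L.p j * (∑ i ∈ T, L.p i) = if j ∈ T then L.p j else 0 := by
  rw [Finset.mul_sum]
  split_ifs with h
  · rw [Finset.sum_eq_single_of_mem j h (fun i _ hi => L.p_ne (Ne.symm hi)), L.p_self]
  · exact Finset.sum_eq_zero fun i hi => L.p_ne fun hij => h (hij.symm ▸ hi)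

theorem p_sum_self (L : Lef E n) (T : Finset ℕ) :
    (∑ i ∈ T, L.p i) * (∑ i ∈ T, L.p i) = ∑ i ∈ T, L.p i := by
  rw [Finset.mul_sum]
  exact Finset.sum_congr rfl fun i hi => by rw [p_sum_p, if_pos hi]

/-- The rank of a homogeneous element is the sum of the ranks on the graded pieces. -/
theorem rk_sum (L : Lef E n) {M : E} {s : ℕ} (hM : ∀ j, M * L.p j = L.p (j + s) * M)
    (T : Finset ℕ) : rk S (M * ∑ j ∈ T, L.p j) = ∑ j ∈ T, rk S (M * L.p j) := by
  classical
  induction T using Finset.induction_on with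
  | empty => rw [Finset.sum_empty, mul_zero, rk_zero, Finset.sum_empty]
  | insert i T hi ih =>
    rw [Finset.sum_insert hi, Finset.sum_insert hi, mul_add, ← ih]
    refine rk_add S (e := L.p (i + s)) (e' := ∑ j ∈ T, L.p (j + s)) (f := L.p i)
      (f' := ∑ j ∈ T, L.p j) ?_ ?_ ?_ ?_ ?_ ?_ ?_
    · rw [hM, ← mul_assoc, L.p_self]
    · rw [mul_assoc, L.p_self]
    · have h1 : M * ∑ j ∈ T, L.p j = (∑ j ∈ T, L.p (j + s)) * M := by
        rw [Finset.mul_sum, Finset.sum_mul]
        exact Finset.sum_congr rfl fun j _ => hM j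
      have h2 : (∑ j ∈ T, L.p (j + s)) * (∑ j ∈ T, L.p (j + s)) = ∑ j ∈ T, L.p (j + s) := by
        rw [Finset.mul_sum]
        refine Finset.sum_congr rfl fun j hj => ?_
        rw [Finset.sum_mul, Finset.sum_eq_single_of_mem j hj (fun i _ hi => L.p_ne (by omega)),
          L.p_self]
      rw [h1, ← mul_assoc, h2]
    · rw [mul_assoc, p_sum_self]
    · rw [Finset.mul_sum]
      refine Finset.sum_eq_zero fun j hj => L.p_ne ?_
      intro h
      exact hi ((show i = j by omega) ▸ hj)
    · rw [mul_assoc, p_p_sum, if_neg hi, mul_zero]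
    · rw [mul_assoc, p_sum_p, if_neg hi, mul_zero]

end rk

section adj

variable {E : Type} [Ring E] [Algebra ℚ E] [FiniteDimensional ℚ E] {n : ℕ} {X : KRing n}
  (A : Act E X) (S : Submodule E E)

/-- The adjoint of an element has at most the same rank. -/
theorem rk_le_of_adj {a b : E} (h : ∀ x y, F X (A.ρ a x) y = F X x (A.ρ b y)) :
    rk S b ≤ rk S a := by
  set w := A.L.W with hw
  have hw4 : w * (w * (w * w)) = 1 := A.L.W_four
  have hw4' : w * (w * w) * w = 1 := by rw [← hw4]; simp only [mul_assoc]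
  set c := w * (w * w) * b * w with hc
  have hrk : rk S c = rk S b := by
    rw [hc, rk_mul_unit S (v := w * (w * w)) hw4]
    exact rk_unit_mul S (v := w) hw4 b
  have hwc : w * c = b * w := by
    rw [hc]
    calc w * (w * (w * w) * b * w) = (w * (w * (w * w))) * (b * w) := by simp only [mul_assoc]
      _ = _ := by rw [hw4, one_mul]
  have key : ∀ {p q : ℤ} {z : X.R}, z ∈ typ X p q → A.ρ a (A.ρ c z) = 0 → A.ρ c z = 0 := by
    intro p q z hz h0
    refine A.h_pos (A.typ_mem' c hz) ?_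
    unfold Act.h
    have e1 : A.ρ w (A.ρ c z) = A.ρ b (A.ρ w z) := by
      rw [← Module.End.mul_apply (A.ρ w), ← map_mul, hwc, map_mul, Module.End.mul_apply]
    rw [← hw, e1, ← h, h0, F_zero_left]
  rw [← hrk, ← rk_mul_of_inj S (a := a) (b := c) (fun x hx => ?_)]
  · exact rk_mul_le_left S a c
  · refine A.zero_of_typ fun p q z hz => ?_
    rw [map_mul, Module.End.mul_apply]
    refine key (A.typ_mem' (x : E) hz) ?_
    rw [← Module.End.mul_apply (A.ρ c), ← map_mul, ← Module.End.mul_apply (A.ρ a), ← map_mul, hx,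
      map_zero]
    rfl

theorem F_dg (j : ℕ) (hj : j ≤ 2 * n) (x y : X.R) : F X (dg X j x) y = F X x (dg X (2 * n - j) y) := by
  refine X.ind (P := fun x => F X (dg X j x) y = F X x (dg X (2 * n - j) y)) ?_ ?_ ?_ x
  · rw [map_zero, F_zero_left, F_zero_left]
  · intro x x' hx hx'
    rw [map_add, F_add_left, F_add_left, hx, hx']
  · intro p q x hx
    refine X.ind (P := fun y => F X (dg X j x) y = F X x (dg X (2 * n - j) y)) ?_ ?_ ?_ y
    · rw [map_zero, F_zero_right, F_zero_right]
    · intro x x' hx hx'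
      rw [map_add, F_add_right, F_add_right, hx, hx']
    · intro p' q' y hy
      rw [dg_of X hx, dg_of X hy]
      by_cases h : p + q + (p' + q') = 2 * n
      · by_cases h1 : p + q = j
        · rw [if_pos h1, if_pos (by push_cast [Nat.cast_sub hj]; omega)]
        · rw [if_neg h1, if_neg (by push_cast [Nat.cast_sub hj]; omega), F_zero_left,
            F_zero_right]
      · have h0 : F X x y = 0 := by
          rw [F_of X hx, X.tr_van (p + q') (q + p') _ (X.mul_mem hx (X.bar_mem _ _ _ hy))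
            (fun h1 => h (by omega)), mul_zero]
        split_ifs <;> simp [h0, F_zero_left, F_zero_right]

/-- Elements which are selfadjoint up to sign have the same rank in dual degrees. -/
theorem rk_dual {M : E} {κ : ℕ} (hM : ∀ j, M * A.L.p j = A.L.p (j + 2 * κ) * M) {ε : E}
    (hε : ε * ε = 1) (hεc : ∀ a : E, ε * a = a * ε)
    (hadj : ∀ x y, F X (A.ρ M x) y = F X x (A.ρ (ε * M) y)) {j j' : ℕ}
    (hj : j + j' + 2 * κ = 2 * n) : rk S (M * A.L.p j) = rk S (M * A.L.p j') := by
  have key : ∀ {j j' : ℕ}, j + j' + 2 * κ = 2 * n → rk S (M * A.L.p j') ≤ rk S (M * A.L.p j) := by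
    intro j j' hj
    rw [← rk_unit_mul S (u := ε) (v := ε) hε (M * A.L.p j')]
    refine rk_le_of_adj A S fun x y => ?_
    rw [hM, map_mul, Module.End.mul_apply, A.rho_p, F_dg _ (by omega), hadj,
      show 2 * n - (j + 2 * κ) = j' by omega, ← A.rho_p, ← Module.End.mul_apply (A.ρ (ε * M)),
      ← map_mul, mul_assoc]
  exact le_antisymm (key (by omega)) (key hj)

theorem rk_sym {k : ℕ} (hk : k ≤ n) : rk S (A.L.p (n + k)) = rk S (A.L.p (n - k)) := by
  have h := A.L.t_sym (tS S) (tS_mul S) hk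
  rw [tS_rk S (A.L.p_self _), tS_rk S (A.L.p_self _)] at h
  exact_mod_cast h

theorem rk_sym' {j j' : ℕ} (h : j + j' = 2 * n) : rk S (A.L.p j) = rk S (A.L.p j') := by
  rcases Nat.le_total n j with hj | hj
  · have := rk_sym A S (k := j - n) (by omega)
    rwa [show n + (j - n) = j by omega, show n - (j - n) = j' by omega] at this
  · have := rk_sym A S (k := n - j) (by omega)
    rw [show n + (n - j) = j' by omega, show n - (n - j) = j by omega] at this
    exact this.symm

theorem p_big' (L : Lef E n) {m : ℕ} (h : 2 * n < m) : L.p m = 0 := by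
  have h1 : L.p m * ∑ i ∈ Finset.range (2 * n + 1), L.p i = L.p m := by rw [L.sum, mul_one]
  rw [← h1, Finset.mul_sum]
  refine Finset.sum_eq_zero fun i hi => L.p_ne ?_
  rw [Finset.mem_range] at hi
  omega

end adj

section lin

variable {V : Type} [AddCommGroup V] [Module ℚ V] [FiniteDimensional ℚ V]

/-- One condition. -/
theorem cond_one (K W R : Submodule ℚ V) (hR : R ≤ W) (f : V →ₗ[ℚ] V) (hf : ∀ x ∈ K, f x ∈ W) :
    finrank ℚ K + finrank ℚ R ≤ finrank ℚ (K ⊓ R.comap f : Submodule ℚ V) + finrank ℚ W := by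
  let g : K →ₗ[ℚ] V ⧸ R := R.mkQ ∘ₗ f ∘ₗ K.subtype
  have h1 := LinearMap.finrank_range_add_finrank_ker g
  have h2 : LinearMap.range g ≤ W.map R.mkQ := by
    rintro _ ⟨x, rfl⟩
    exact ⟨f x, hf x x.2, rfl⟩
  have h3 := Submodule.finrank_mono h2
  have h4 : finrank ℚ (W.map R.mkQ) + finrank ℚ R = finrank ℚ W := by
    have h5 := LinearMap.finrank_range_add_finrank_ker (R.mkQ ∘ₗ W.subtype)
    have h6 : LinearMap.range (R.mkQ ∘ₗ W.subtype) = W.map R.mkQ := by
      rw [LinearMap.range_comp, Submodule.range_subtype]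
    have h7 : finrank ℚ (LinearMap.ker (R.mkQ ∘ₗ W.subtype)) = finrank ℚ R := by
      have : LinearMap.ker (R.mkQ ∘ₗ W.subtype) = R.comap W.subtype := by
        rw [LinearMap.ker_comp, Submodule.ker_mkQ]
      rw [this]
      exact (Submodule.comapSubtypeEquivOfLe hR).finrank_eq
    rw [h6, h7] at h5
    exact h5
  have h8 : finrank ℚ (LinearMap.ker g) = finrank ℚ (K ⊓ R.comap f : Submodule ℚ V) := by
    have : LinearMap.ker g = (K ⊓ R.comap f : Submodule ℚ V).comap K.subtype := by
      ext x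
      simp only [g, LinearMap.mem_ker, LinearMap.comp_apply, Submodule.mkQ_apply,
        Submodule.Quotient.mk_eq_zero, Submodule.subtype_apply, Submodule.mem_comap,
        Submodule.mem_inf, SetLike.coe_mem, true_and]
    rw [this]
    exact (Submodule.comapSubtypeEquivOfLe inf_le_left).finrank_eq
  omega

/-- Two conditions. -/
theorem cond_two (K W₁ R₁ W₂ R₂ : Submodule ℚ V) (hR₁ : R₁ ≤ W₁) (hR₂ : R₂ ≤ W₂)
    (f₁ f₂ : V →ₗ[ℚ] V) (hf₁ : ∀ x ∈ K, f₁ x ∈ W₁) (hf₂ : ∀ x ∈ K, f₂ x ∈ W₂) :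
    finrank ℚ K + finrank ℚ R₁ + finrank ℚ R₂ ≤
      finrank ℚ (K ⊓ R₁.comap f₁ ⊓ R₂.comap f₂ : Submodule ℚ V) + finrank ℚ W₁ +
        finrank ℚ W₂ := by
  have h1 := cond_one K W₁ R₁ hR₁ f₁ hf₁
  have h2 := cond_one (K ⊓ R₁.comap f₁) W₂ R₂ hR₂ f₂ fun x hx => hf₂ x hx.1
  omega

/-- The image of two copies of a subspace. -/
theorem image_two (P : Submodule ℚ V) (g₁ g₂ : V →ₗ[ℚ] V)
    (hg : ∀ x ∈ P, ∀ y ∈ P, g₁ x + g₂ y = 0 → x = 0 ∧ y = 0) :
    ∃ U : Submodule ℚ V, finrank ℚ U = 2 * finrank ℚ P ∧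
      ∀ z ∈ U, ∃ x ∈ P, ∃ y ∈ P, z = g₁ x + g₂ y := by
  let G : P × P →ₗ[ℚ] V := (g₁ ∘ₗ P.subtype).coprod (g₂ ∘ₗ P.subtype)
  have hG : ∀ z : P × P, G z = g₁ z.1 + g₂ z.2 := fun z => rfl
  have hinj : Function.Injective G := by
    rw [injective_iff_map_eq_zero]
    intro z hz
    rw [hG] at hz
    obtain ⟨h1, h2⟩ := hg _ z.1.2 _ z.2.2 hz
    exact Prod.ext (Subtype.ext h1) (Subtype.ext h2)
  refine ⟨LinearMap.range G, ?_, ?_⟩
  · rw [LinearMap.finrank_range_of_inj hinj, Module.finrank_prod]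
    ring
  · rintro _ ⟨z, rfl⟩
    exact ⟨z.1, z.1.2, z.2, z.2.2, hG z⟩

theorem finrank_disj (U₁ U₂ K : Submodule ℚ V) (h₁ : U₁ ≤ K) (h₂ : U₂ ≤ K)
    (h : ∀ x ∈ U₁, x ∈ U₂ → x = 0) : finrank ℚ U₁ + finrank ℚ U₂ ≤ finrank ℚ K := by
  have h3 : U₁ ⊓ U₂ = ⊥ := by
    rw [eq_bot_iff]
    rintro x ⟨hx1, hx2⟩
    rw [Submodule.mem_bot]
    exact h x hx1 hx2
  have h4 := Submodule.finrank_sup_add_finrank_inf_eq U₁ U₂
  rw [h3, finrank_bot, add_zero] at h4
  rw [← h4]
  exact Submodule.finrank_mono (sup_le h₁ h₂)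

end lin

end Pool.Agent.P8H30.OR
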