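import Pool.Agent.P8H30.OR.Geo
import Pool.Agent.P8H56.DH.Fin

/-!
# The first and the second motive
-/

open CategoryTheory

set_option autoImplicit false
set_option linter.unusedSectionVars false

universe u v

namespace Pool.Agent.P8H30.OR

open Module Pool.Agent.W539.DI Pool.Agent.R941.OH Pool.Agent.R929.DH Pool.Agent.P8H56.DH
  Pool.Agent.N174.OC

/-! ### Two-sided ideals -/

section ideal

variable {E : Type} [Ring E]

/-- The two-sided ideal generated by `a`. -/
def two (a : E) : Ideal E := Ideal.span {z | ∃ x : E, z = a * x}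

theorem two_ind {a : E} {P : E → Prop} (h0 : P 0) (hadd : ∀ x y, P x → P y → P (x + y))
    (h : ∀ u v : E, P (u * a * v)) {x : E} (hx : x ∈ two a) : P x := by
  have key : ∀ x ∈ two a, ∀ u : E, P (u * x) := by
    intro x hx
    unfold two Ideal.span at hx
    refine Submodule.span_induction (p := fun x _ => ∀ u : E, P (u * x)) ?_ ?_ ?_ ?_ hx
    · rintro _ ⟨y, rfl⟩ u
      rw [← mul_assoc]
      exact h u y
    · intro u
      rw [mul_zero]
      exact h0
    · intro x y _ _ hx hy u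
      rw [mul_add]
      exact hadd _ _ (hx u) (hy u)
    · intro c x _ hx u
      rw [smul_eq_mul, ← mul_assoc]
      exact hx (u * c)
  have := key x hx 1
  rwa [one_mul] at this

theorem mem_two (a u v : E) : u * a * v ∈ two a := by
  rw [mul_assoc]
  exact Ideal.mul_mem_left _ _ (Ideal.subset_span ⟨v, rfl⟩)

theorem two_right {a : E} : ∀ x ∈ two a, ∀ b : E, x * b ∈ two a := by
  intro x hx b
  refine two_ind (P := fun x => x * b ∈ two a) ?_ ?_ ?_ hx
  · rw [zero_mul]
    exact Ideal.zero_mem _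
  · intro x y hx hy
    rw [add_mul]
    exact Ideal.add_mem _ hx hy
  · intro u v
    rw [mul_assoc]
    exact mem_two a u (v * b)

variable [Algebra ℚ E]

/-- The values of traces on the ideal of an idempotent with a rational corner. -/
theorem two_trace {p : E} (hp : p * p = p) (hcor : ∀ z : E, ∃ q : ℚ, p * z * p = q • p) {x : E}
    (hx : x ∈ two p) : ∃ q : ℚ, ∀ t : E →+ ℂ, (∀ x y, t (x * y) = t (y * x)) →
      t x = (q : ℂ) * t p := by
  refine two_ind (P := fun x => ∃ q : ℚ, ∀ t : E →+ ℂ, (∀ x y, t (x * y) = t (y * x)) →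
      t x = (q : ℂ) * t p) ⟨0, fun t _ => by simp⟩ ?_ ?_ hx
  · rintro x y ⟨q, hq⟩ ⟨q', hq'⟩
    refine ⟨q + q', fun t ht => ?_⟩
    rw [map_add, hq t ht, hq' t ht]
    push_cast
    ring
  · intro u v
    obtain ⟨q, hq⟩ := hcor (v * u)
    refine ⟨q, fun t ht => ?_⟩
    have e1 : t (u * p * v) = t (p * (v * u) * p) := by
      calc t (u * p * v) = t (u * p * (p * v)) := by
            congr 1
            calc u * p * v = u * (p * p) * v := by rw [hp]
              _ = _ := by simp only [mul_assoc]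
        _ = t (p * v * (u * p)) := ht _ _
        _ = _ := by simp only [mul_assoc]
    rw [e1, hq, map_rat_smul t, Rat.smul_def]

end ideal

section ring

variable {n : ℕ}

/-- Rational multiples of one. -/
theorem rat_coef {X : KRing n} (r : RatStr X) {c : ℂ} (h : r.IsRat (c • (1 : X.R))) :
    ∃ q : ℚ, c = q := by
  have h1 : ∃ i, r.e.repr (1 : X.R) i ≠ 0 := by
    by_contra hne
    push Not at hne
    exact one_ne X (r.e.ext_elem fun i => by rw [hne i, map_zero]; rfl)
  obtain ⟨i, hi⟩ := h1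
  obtain ⟨a, ha⟩ := r.one_rat i
  obtain ⟨b, hb⟩ := h i
  rw [map_smul, Finsupp.smul_apply, smul_eq_mul, ha] at hb
  refine ⟨b / a, ?_⟩
  rw [ha] at hi
  push_cast
  rw [← hb, mul_div_assoc, div_self hi, mul_one]

theorem dg_one (X : KRing n) : dg X 0 (1 : X.R) = 1 := by
  rw [dg_of X X.one_mem, if_pos (by norm_num)]

theorem dg_zero_mem (X : KRing n) (x : X.R) : dg X 0 x ∈ X.H (0, 0) := by
  obtain ⟨f, hf⟩ := exists_coef X
  rw [hf]
  exact Submodule.smul_mem _ _ X.one_mem

theorem trace_zero (X : KRing n) : LinearMap.trace ℂ X.R (dg X 0) = 1 := by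
  have hp : LinearMap.IsProj (X.H (0, 0)) (dg X 0) := by
    constructor
    · exact dg_zero_mem X
    · intro x hx
      rw [dg_of X hx, if_pos (by norm_num)]
  rw [hp.trace, X.conn, Nat.cast_one]

end ring

variable {𝒪 : Type u} [Category.{v} 𝒪] [Preadditive 𝒪] [Linear ℚ 𝒪] {n : ℕ}
  (T : CorTheory 𝒪 n) {X Y : 𝒪} {v : X ⟶ Y} {w : Y ⟶ X} (h : T.IsDerivedPair v w)

/-- The theorem of Lefschetz on classes of type `(1, 1)`. -/
def Lef11 (Z : 𝒪) : Prop :=
  ∀ x ∈ (T.K Z).H (1, 1), (T.r Z).IsRat x → ∃ Γ : Z ⟶ Z, T.act Γ 1 = x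

section

variable (A : Act (Ealg T X) (T.K X)) (B : Act (Ealg T X) (T.K Y)) (hA : A.ρ = rhoE T X)
  (hB : B.ρ = rhoF T h)

include hA

theorem corner (z : Ealg T X) : ∃ q : ℚ, A.L.p 0 * z * A.L.p 0 = q • A.L.p 0 := by
  obtain ⟨f, hf⟩ := exists_coef (T.K X)
  have h1 : (T.r X).IsRat (f (A.ρ z 1) • (1 : (T.K X).R)) := by
    rw [← hf]
    refine ratOp_dg (T.r X) 0 _ ?_
    obtain ⟨Γ, hΓ⟩ := rhoE_alg T z
    rw [hA, ← hΓ]
    exact T.act_rat Γ 1 (T.r X).one_rat
  obtain ⟨q, hq⟩ := rat_coef (T.r X) h1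
  refine ⟨q, A.inj ?_⟩
  ext x
  rw [rho_smul, rho_mul, rho_mul, A.rho_p, hf x, map_smul, map_smul, hf, hq, smul_comm, ← hf]

omit hA

/-- The part of degree two without holomorphic two-forms is generated by classes of degree
zero. -/
theorem lef_kill {Z : 𝒪} (C : Act (Ealg T X) (T.K Z))
    (hs : ∀ Γ : Z ⟶ Z, ∃ b, C.ρ b = T.act Γ) (ha : ∀ b, ∃ Γ : Z ⟶ Z, T.act Γ = C.ρ b)
    (hl : Lef11 T Z) {e e0 : Ealg T X} (hec : ∀ b, e * b = b * e)
    (he : ∀ z ∈ typ (T.K Z) 2 0, C.ρ e z = z)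
    (he0 : ∀ b, e0 * (b * C.L.p 0) = b * C.L.p 0) : (1 - e0) * ((1 - e) * C.L.p 2) = 0 := by
  set c : Ealg T X := (1 - e) * C.L.p 2 with hc
  have hc2 : c = C.L.p 2 * (1 - e) := by
    rw [hc, sub_mul, mul_sub, one_mul, mul_one, hec]
  have happ : ∀ x, C.ρ c x = dg (T.K Z) 2 x - C.ρ e (dg (T.K Z) 2 x) := by
    intro x
    rw [hc, rho_mul, C.rho_p, map_sub, map_one, LinearMap.sub_apply, Module.End.one_apply]
  have h11 : ∀ x, C.ρ c x ∈ (T.K Z).H (1, 1) := by
    intro x
    refine (T.K Z).ind (P := fun x => C.ρ c x ∈ (T.K Z).H (1, 1)) ?_ ?_ ?_ x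
    · rw [map_zero]
      exact Submodule.zero_mem _
    · intro x y hx hy
      rw [map_add]
      exact Submodule.add_mem _ hx hy
    · intro p q x hx
      by_cases hpq : p + q = (2 : ℕ)
      · by_cases hneg : p < 0 ∨ q < 0
        · rw [zero_of (T.K Z) (by omega) hx, map_zero]
          exact Submodule.zero_mem _
        · have h3 : p = 0 ∨ p = 1 ∨ p = 2 := by push_cast at hpq; omega
          rcases h3 with h3 | h3 | h3
          · have h4 : q = 2 := by push_cast at hpq; omega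
            subst h3; subst h4
            rw [happ, dg_of (T.K Z) hx, if_pos hpq]
            obtain ⟨Γ, hΓ⟩ := ha e
            have h5 : C.ρ e x = x := by
              have h6 := he _ (mem_typ (T.K Z) ((T.K Z).bar_mem _ _ x hx))
              rw [← hΓ, real_act] at h6
              have h7 := congrArg (T.K Z).bar h6
              rw [(T.K Z).bar_bar, (T.K Z).bar_bar, hΓ] at h7
              exact h7
            rw [h5, sub_self]
            exact Submodule.zero_mem _
          · have h4 : q = 1 := by push_cast at hpq; omega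
            subst h3; subst h4
            rw [hc2, rho_mul, C.rho_p]
            exact mem_of_typ (C.typ_mem (1 - e) 1 1 x hx) (by norm_num) rfl
          · have h4 : q = 0 := by push_cast at hpq; omega
            subst h3; subst h4
            rw [happ, dg_of (T.K Z) hx, if_pos hpq, he _ (mem_typ (T.K Z) hx), sub_self]
            exact Submodule.zero_mem _
      · rw [happ, dg_of (T.K Z) hx, if_neg hpq, map_zero, sub_self]
        exact Submodule.zero_mem _
  apply C.inj
  rw [map_zero]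
  refine (T.r Z).e.ext fun i => ?_
  rw [rho_mul, map_sub, map_one, LinearMap.sub_apply, Module.End.one_apply, LinearMap.zero_apply,
    sub_eq_zero]
  obtain ⟨Δ, hΔ⟩ := ha c
  have hrat : (T.r Z).IsRat (C.ρ c ((T.r Z).e i)) := by
    rw [← hΔ]
    exact T.act_rat Δ _ (rat_e (T.r Z) i)
  obtain ⟨Γ, hΓ⟩ := hl _ (h11 _) hrat
  obtain ⟨b, hb⟩ := hs Γ
  have h1 : C.ρ c ((T.r Z).e i) = C.ρ (b * C.L.p 0) 1 := by
    rw [rho_mul C b, C.rho_p, dg_one, hb, hΓ]
  rw [h1, ← rho_mul, he0]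

/-- The part of degree one without holomorphic forms is zero. -/
theorem one_kill {Z : 𝒪} (C : Act (Ealg T X) (T.K Z))
    (ha : ∀ b, ∃ Γ : Z ⟶ Z, T.act Γ = C.ρ b) {e : Ealg T X}
    (he : ∀ z ∈ typ (T.K Z) 1 0, C.ρ e z = z) : e * C.L.p 1 = C.L.p 1 := by
  apply C.inj
  refine hom_ext (T.K Z) fun p q x hx => ?_
  rw [rho_mul, C.rho_p, dg_of (T.K Z) hx]
  split_ifs with hpq
  · by_cases hneg : p < 0 ∨ q < 0
    · rw [zero_of (T.K Z) (by omega) hx, map_zero]
    · have h3 : p = 0 ∨ p = 1 := by push_cast at hpq; omega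
      rcases h3 with h3 | h3
      · have h4 : q = 1 := by push_cast at hpq; omega
        subst h3; subst h4
        obtain ⟨Γ, hΓ⟩ := ha e
        have h6 := he _ (mem_typ (T.K Z) ((T.K Z).bar_mem _ _ x hx))
        rw [← hΓ, real_act] at h6
        have h7 := congrArg (T.K Z).bar h6
        rw [(T.K Z).bar_bar, (T.K Z).bar_bar, hΓ] at h7
        exact h7
      · have h4 : q = 0 := by push_cast at hpq; omega
        subst h3; subst h4
        exact he _ (mem_typ (T.K Z) hx)
  · rw [map_zero]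

include hA hB

theorem surX (Γ : X ⟶ X) : ∃ b, A.ρ b = T.act Γ := by
  rw [hA]
  exact exists_E T (isAlg_act T Γ)

theorem surY (Γ : Y ⟶ Y) : ∃ b, B.ρ b = T.act Γ := by
  rw [hB]
  exact exists_F T h (isAlg_act T Γ)

theorem algX (b : Ealg T X) : ∃ Γ : X ⟶ X, T.act Γ = A.ρ b := by
  rw [hA]
  exact rhoE_alg T b

theorem algY (b : Ealg T X) : ∃ Γ : Y ⟶ Y, T.act Γ = B.ρ b := by
  rw [hB]
  exact rhoF_alg T h b

/-- The second motive. -/
theorem iso_second (hBX : T.ConjB X) (hBY : T.ConjB Y) {L : (T.K X).R} {L' : (T.K Y).R}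
    {N : Ealg T X} (hNA : A.ρ N = mu (T.K X) L) (hNB : B.ρ N = mu (T.K Y) L')
    (hc : ∀ x, T.act v ((T.K X).c * x) = (T.K Y).c * T.act v x)
    (hX : Semipositive (T.K X) L) (hY : Semipositive (T.K Y) L') {k : ℕ} (hk : 2 + k + 2 = n)
    (hK : L ^ (2 + k) ≠ 0 ∨ KMap A B (fm T h) L L' k 2)
    (hlX : Lef11 T X) (hlY : Lef11 T Y) (h20 : (T.K X).h 2 0 = (T.K Y).h 2 0)
    (h11 : (T.K X).h 1 1 = (T.K Y).h 1 1) : T.Iso X Y 2 := by
  have _ := A.semisimple
  have hΦ := phi_rho T h A B hA hB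
  obtain ⟨e, he, hec, heh, he0⟩ := hol_central A 2
  have hehY : ∀ y ∈ typ (T.K Y) 2 0, B.ρ e y = y := by
    intro y hy
    obtain ⟨x, hx, rfl⟩ := onto_typ A B (fm T h) hΦ hy
    rw [← hΦ, heh x hx]
  -- the central idempotent which belongs to the degree zero
  obtain ⟨f, hf, hfc, hfJ, hJf⟩ := exists_central (two (A.L.p 0)) two_right
  have hJ : ∀ x ∈ two (A.L.p 0), (1 - f) * x = x := by
    intro x hx
    rw [sub_mul, one_mul, hJf x hx, sub_zero]
  have hp0 : ∀ b, b * A.L.p 0 ∈ two (A.L.p 0) := by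
    intro b
    have := mem_two (A.L.p 0) b 1
    rwa [mul_one] at this
  obtain ⟨a', b', hab, hba⟩ := idem_equiv (E := Ealg T X) (A.L.p_self 0) (B.L.p_self 0) fun S => by
    rw [tS_rk S (A.L.p_self 0), tS_rk S (B.L.p_self 0),
      rk_of_iso T h A B hA hB hBX hBY 0 (by omega) (iso_zero T) S]
  have hp0' : ∀ b, b * B.L.p 0 ∈ two (A.L.p 0) := by
    intro b
    have e1 : b * B.L.p 0 = (b * b') * A.L.p 0 * a' := by
      calc b * B.L.p 0 = b * (B.L.p 0 * B.L.p 0) := by rw [B.L.p_self]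
        _ = b * (b' * a' * (b' * a')) := by rw [hba]
        _ = b * b' * (a' * b') * a' := by simp only [mul_assoc]
        _ = _ := by rw [hab]
    rw [e1]
    exact mem_two _ _ _
  have hT : LinearMap.trace ℂ (T.K X).R (dg (T.K X) 2) =
      LinearMap.trace ℂ (T.K Y).R (dg (T.K Y) 2) := by
    rw [trace_two, trace_two, h20, h11, (T.K X).h_swap 0 2, (T.K Y).h_swap 0 2, h20]
  have hrk : ∀ S : Submodule (Ealg T X) (Ealg T X), rk S (e * A.L.p 2) = rk S (e * B.L.p 2) :=
    fun S => hol_rank_full A B (fm T h) hΦ hNA hNB hc hX hY (p := 2) (k := k) hk hK he hec he0 S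
  have hsec := second A B (fm T h) hΦ hT he hec hrk (e0 := 1 - f)
    (fun b => by rw [sub_mul, mul_sub, one_mul, mul_one, hfc])
    (fun a => by
      obtain ⟨q, hq⟩ := two_trace (A.L.p_self 0) (corner T A hA)
        (two_right _ hfJ a)
      refine ⟨q, ?_, fun S => ?_⟩
      · exact hq (((LinearMap.trace ℂ (T.K X).R).toAddMonoidHom).comp A.ρ.toAddMonoidHom)
          (fun x y => by
            show LinearMap.trace ℂ (T.K X).R (A.ρ (x * y)) =
              LinearMap.trace ℂ (T.K X).R (A.ρ (y * x))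
            rw [map_mul A.ρ, map_mul A.ρ]
            exact LinearMap.trace_mul_comm ℂ (A.ρ x) (A.ρ y))
      · have h1 := hq ((algebraMap ℚ ℂ).toAddMonoidHom.comp (tS S)) (fun x y => by
          show algebraMap ℚ ℂ (tS S (x * y)) = algebraMap ℚ ℂ (tS S (y * x))
          rw [tS_mul])
        have h2 : ((tS S ((1 - f) * a) : ℚ) : ℂ) = (q : ℂ) * ((tS S (A.L.p 0) : ℚ) : ℂ) := h1
        exact_mod_cast h2)
    (by rw [A.rho_p, trace_zero]; exact one_ne_zero (α := ℂ))
    (lef_kill T A (surX T h A B hA hB) (algX T h A B hA hB) hlX hec heh fun b => hJ _ (hp0 b))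
    (lef_kill T B (surY T h A B hA hB) (algY T h A B hA hB) hlY hec hehY fun b => hJ _ (hp0' b))
  refine iso_of_rk T h A B hA hB 2 (by omega) fun S => ?_
  have h1 := hsec S
  rw [tS_rk S (A.L.p_self 2), tS_rk S (B.L.p_self 2)] at h1
  exact_mod_cast h1

/-- The first motive. -/
theorem iso_first {L : (T.K X).R} {L' : (T.K Y).R}
    {N : Ealg T X} (hNA : A.ρ N = mu (T.K X) L) (hNB : B.ρ N = mu (T.K Y) L')
    (hc : ∀ x, T.act v ((T.K X).c * x) = (T.K Y).c * T.act v x)
    (hX : Semipositive (T.K X) L) (hY : Semipositive (T.K Y) L') {k : ℕ} (hk : 1 + k + 2 = n)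
    (hK : L ^ (1 + k) ≠ 0 ∨ KMap A B (fm T h) L L' k 1) : T.Iso X Y 1 := by
  have _ := A.semisimple
  have hΦ := phi_rho T h A B hA hB
  obtain ⟨e, he, hec, heh, he0⟩ := hol_central A 1
  have hehY : ∀ y ∈ typ (T.K Y) 1 0, B.ρ e y = y := by
    intro y hy
    obtain ⟨x, hx, rfl⟩ := onto_typ A B (fm T h) hΦ hy
    rw [← hΦ, heh x hx]
  refine iso_of_rk T h A B hA hB 1 (by omega) fun S => ?_
  have h1 := hol_rank_full A B (fm T h) hΦ hNA hNB hc hX hY (p := 1) (k := k) hk hK he hec he0 S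
  rwa [one_kill T A (algX T h A B hA hB) heh, one_kill T B (algY T h A B hA hB) hehY] at h1

end

end Pool.Agent.P8H30.OR
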