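import Pool.Agent.P8H30.OR.Ex

/-!
# Positivity for classes of defect at most two
-/

set_option autoImplicit false
set_option linter.unusedSectionVars false

open scoped ComplexConjugate
open Module Pool.Agent.W539.DI Pool.Agent.R941.OH Pool.Agent.R929.DH Pool.Agent.P8H56.DH

namespace Pool.Agent.P8H30.OR

variable {n : ℕ} {X : KRing n} {L : X.R}

theorem q2_of (hm : L ∈ X.H (1, 1)) {p q : ℤ} (k : ℕ) {x : X.R} (hx : x ∈ X.H (p, q)) :
    (sg p q : ℂ) * hf X L k x (X.ω * (X.ω * x)) =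
      Complex.I ^ (p - q) * (-1 : ℂ) ^ ((p + q) * (p + q - 1) / 2) *
        X.tr (L ^ k * (X.ω ^ 2 * (x * X.bar x))) := by
  have e1 : x * X.bar (X.ω * (X.ω * x)) = X.ω ^ 2 * (x * X.bar x) := by
    rw [X.bar_mul, X.bar_mul, X.ω_bar, ← mul_assoc, ← X.central X.ω_mem, mul_assoc, ← mul_assoc x,
      ← X.central X.ω_mem, mul_assoc X.ω x, ← mul_assoc, ← pow_two]
  rw [hf_hom hm hx, ← mul_assoc, sg_I, e1]

/-- The relative Hodge-Riemann relations. -/
theorem rel_q2 (hL : DefectTwo X L) {p q : ℤ} {k : ℕ} (hk : p + q + k + 2 = n) {x : X.R}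
    (hx : x ∈ X.H (p, q)) (h0 : L ^ (k + 1) * x = 0) :
    0 ≤ sg p q * q2 X L k x ∧ (x ≠ 0 → 0 < sg p q * q2 X L k x) := by
  have key : x ≠ 0 → 0 < sg p q * q2 X L k x := by
    intro hne
    obtain ⟨r, hr, he⟩ := hL.rel p q k hk x hx hne h0
    rw [← q2_of hL.mem k hx] at he
    have h2 := congrArg Complex.re he
    rw [Complex.re_ofReal_mul, Complex.ofReal_re] at h2
    unfold q2
    rw [h2]
    exact hr
  refine ⟨?_, key⟩
  by_cases hne : x = 0
  · unfold q2
    rw [hne, hf_zero_left']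
    simp
  · exact (key hne).le

/-- Vanishing in low degrees. -/
theorem low_zero (hL : DefectTwo X L) {m k : ℕ} (hk : m + k + 2 = n) {a b : ℤ} {z : X.R}
    (hz : z ∈ typ X a b) (h0 : L ^ (k + 1) * z = 0) {j : ℕ} (hj : j < m) : dg X j z = 0 := by
  by_cases hpar : ∃ k : ℤ, a + k + (b + k) = j
  · obtain ⟨i, hi⟩ := hpar
    have h1 : dg X j z ∈ X.H (a + i, b + i) := mem_of_typ hz hi (by ring)
    refine hL.inj (a + i) (b + i) (n - 2 - j) (by omega) _ h1 ?_
    have h2 : L ^ (k + 1) * dg X j z = 0 := by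
      rw [← dg_pow hL.mem, h0, map_zero]
    have h3 : n - 2 - j = (n - 2 - j - (k + 1)) + (k + 1) := by omega
    rw [h3, pow_add, mul_assoc, h2, mul_zero]
  · push Not at hpar
    exact dg_typ_zero hz hpar

theorem orth_L (hm : L ∈ X.H (1, 1)) (hb : X.bar L = L) {k : ℕ} {y : X.R}
    (h1 : L ^ (k + 1) * y = 0) (w : X.R) : hf X L k (L * w) y = 0 ∧ hf X L k y (L * w) = 0 := by
  constructor
  · rw [hf_succ_left hm, hf_F hb, h1, F_zero_right, neg_zero]
  · rw [hf_succ_right hm hb, hf_F hb]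
    have h0 : F X (L ^ (k + 1) * y) w = 0 := by rw [h1, F_zero_left]
    rw [F_pow hm hb] at h0
    exact (mul_eq_zero.mp h0).resolve_left (pow_ne_zero _ (by norm_num))

theorem orth_om (hm : L ∈ X.H (1, 1)) (hb : X.bar L = L) {k : ℕ} {y w0 : X.R}
    (h2 : L ^ k * (X.ω * y) = L ^ (k + 1) * w0) {v : X.R} (hv : L ^ (k + 1) * v = 0) :
    hf X L k (X.ω * v) y = 0 ∧ hf X L k y (X.ω * v) = 0 := by
  have h3 : F X v (L ^ (k + 1) * w0) = 0 := by
    have h0 : F X (L ^ (k + 1) * v) w0 = 0 := by rw [hv, F_zero_left]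
    rw [F_pow hm hb] at h0
    exact (mul_eq_zero.mp h0).resolve_left (pow_ne_zero _ (by norm_num))
  constructor
  · rw [hf_om hm hb, hf_F hb, h2, h3, neg_zero]
  · have h4 : hf X L k (X.ω * y) v = 0 := by
      rw [hf_F hb]
      have h5 : F X (L ^ k * (X.ω * y)) v = (-1) ^ k * F X (X.ω * y) (L ^ k * v) :=
        F_pow hm hb k _ _
      rw [h2, F_pow hm hb, hv, F_zero_right, mul_zero] at h5
      exact (mul_eq_zero.mp h5.symm).resolve_left (pow_ne_zero _ (by norm_num))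
    rw [hf_om hm hb] at h4
    exact neg_eq_zero.mp h4

/-- The middle piece. -/
theorem two_pos (hL : DefectTwo X L) {p q : ℤ} {k : ℕ} (hk : p + q + k = n) {y : X.R}
    (hy : y ∈ X.H (p, q)) (hy1 : L ^ (k + 1) * y = 0) {w0 : X.R}
    (hy2 : L ^ k * (X.ω * y) = L ^ (k + 1) * w0) : 0 ≤ sg p q * bf X L k y y := by
  by_contra hcon
  push Not at hcon
  have hH := isHerm (X := X) (w := L) (k := k) (sg p q)
  obtain ⟨r, hr⟩ : ∃ r : ℕ, p < (r + 1 : ℕ) := ⟨p.toNat, by
    push_cast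
    have := Int.self_le_toNat p
    omega⟩
  obtain ⟨M, M', hM, hM', neg, pos, hsum, hA, hrad⟩ := neg_dim hL (r + 1) p q k hk hr
  obtain ⟨N, N', hN, hN', negN, posN, hsumN, hAN, hradN⟩ :=
    neg_dim hL r (p - 1) (q - 1) (k + 2) (by push_cast; omega) (by push_cast at hr; omega)
  have hk2 : (p - 1 : ℤ) + (q - 1) + (k : ℤ) + 2 = n := by omega
  -- the classes killed by `L ^ (k + 1)`
  let P : Submodule ℂ X.R := X.H (p - 1, q - 1) ⊓ LinearMap.ker (ml X (L ^ (k + 1)))
  have hP : ∀ v ∈ P, v ∈ X.H (p - 1, q - 1) ∧ L ^ (k + 1) * v = 0 := fun v hv => ⟨hv.1, hv.2⟩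
  have hPdual : ∀ v ∈ P, L ^ (k + 1) * X.dual v = 0 := by
    intro v hv
    rw [X.dual_of (hP v hv).1, mul_smul_comm, (hP v hv).2, smul_zero]
  have hPbar : ∀ v ∈ P, L ^ (k + 1) * X.bar v = 0 := by
    intro v hv
    rw [← bar_pow hL.real, (hP v hv).2, map_zero]
  have hPN : P ≤ N' := by
    intro v hv
    refine hradN v (hP v hv).1 fun y _ => ?_
    have h1 : hf X L (k + 2) v y = 0 := by
      unfold hf
      rw [show k + 2 = (k + 1) + 1 from rfl, pow_succ, mul_assoc, ← mul_assoc (X.dual v),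
        ← pow_central hL.mem, hPdual v hv, zero_mul, map_zero]
    have h2 : hf X L (k + 2) y v = 0 := by
      unfold hf
      rw [show k + 2 = (k + 1) + 1 from rfl, pow_succ', mul_assoc, hPbar v hv, mul_zero,
        mul_zero, map_zero]
    unfold bf
    rw [h1, h2]
    simp
  obtain ⟨C, hC⟩ := Submodule.exists_isCompl P
  let W : Submodule ℂ X.R := N' ⊓ C
  have hPW : P ⊔ W = N' := by
    have : P ⊔ C ⊓ N' = (P ⊔ C) ⊓ N' := (sup_inf_assoc_of_le C hPN).symm
    show P ⊔ N' ⊓ C = N'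
    rw [inf_comm, this, hC.sup_eq_top, top_inf_eq]
  have hPWd : P ⊓ W = ⊥ := by
    rw [eq_bot_iff]
    rintro x ⟨hx1, -, hx2⟩
    have : x ∈ P ⊓ C := ⟨hx1, hx2⟩
    rwa [hC.inf_eq_bot] at this
  have hdim : finrank ℂ P + finrank ℂ W = finrank ℂ N' := by
    have h1 := Submodule.finrank_sup_add_finrank_inf_eq P W
    rw [hPW, hPWd, finrank_bot, add_zero] at h1
    exact h1.symm
  -- mixed terms
  have hmix1 : ∀ w : X.R, ∀ v ∈ P, hf X L k (L * w) (X.ω * v) = 0 := by
    intro w v hv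
    rw [hf_succ_left hL.mem, hf_mul_right X.ω_mem X.ω_bar, hPbar v hv, mul_zero, mul_zero,
      map_zero, neg_zero]
  have hmix2 : ∀ w : X.R, ∀ v ∈ P, hf X L k (X.ω * v) (L * w) = 0 := by
    intro w v hv
    rw [hf_succ_right hL.mem hL.real, hf_mul_left X.ω_mem, ← mul_assoc X.ω,
      X.central X.ω_mem (L ^ (k + 1)), mul_assoc, ← mul_assoc (X.dual v),
      ← pow_central hL.mem, hPdual v hv, zero_mul, map_zero, neg_zero]
  have hmix : ∀ w : X.R, ∀ v ∈ P, sg p q * bf X L k (L * w) (X.ω * v) = 0 := by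
    intro w v hv
    unfold bf
    rw [hmix1 w v hv, hmix2 w v hv]
    simp
  have hmixL : ∀ (w : X.R) (c : ℂ), sg p q * bf X L k (L * w) (c • y) = 0 := by
    intro w c
    obtain ⟨g1, g2⟩ := orth_L hL.mem hL.real hy1 w
    unfold bf
    rw [hf_smul_left, hf_smul_right, g1, g2]
    simp
  have hmixω : ∀ v ∈ P, ∀ c : ℂ, sg p q * bf X L k (X.ω * v) (c • y) = 0 := by
    intro v hv c
    obtain ⟨g1, g2⟩ := orth_om hL.mem hL.real hy2 (hP v hv).2
    unfold bf
    rw [hf_smul_left, hf_smul_right, g1, g2]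
    simp
  have hyc : ∀ c : ℂ, sg p q * bf X L k (c • y) (c • y) =
      Complex.normSq c * (sg p q * bf X L k y y) := fun c => hH.smul_self c y
  have hωneg : ∀ v ∈ P, v ≠ 0 → sg p q * bf X L k (X.ω * v) (X.ω * v) < 0 := by
    intro v hv hv0
    have h1 := (rel_q2 hL hk2 (hP v hv).1 (hP v hv).2).2 hv0
    rw [sg_pred] at h1
    rw [bf_self, hf_om hL.mem hL.real, Complex.neg_re]
    unfold q2 at h1
    linarith
  have hLneg : ∀ w ∈ W, sg p q * bf X L k (L * w) (L * w) ≤ 0 := by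
    intro w hw
    have h1 := posN w hw.1
    rw [sg_pred] at h1
    rw [bf_succ hL.mem hL.real]
    linarith
  have hLmem : ∀ w ∈ X.H (p - 1, q - 1), L * w ∈ X.H (p, q) := by
    intro w hw
    have := X.mul_mem hL.mem hw
    have e : ((1 + (p - 1), 1 + (q - 1)) : ℤ × ℤ) = (p, q) := by ext <;> simp
    rwa [e] at this
  have hωmem : ∀ w ∈ X.H (p - 1, q - 1), X.ω * w ∈ X.H (p, q) := by
    intro w hw
    have := X.mul_mem X.ω_mem hw
    have e : ((1 + (p - 1), 1 + (q - 1)) : ℤ × ℤ) = (p, q) := by ext <;> simp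
    rwa [e] at this
  have key : ∀ w ∈ W, ∀ v ∈ P, ∀ c : ℂ,
      (∀ y' ∈ X.H (p, q), sg p q * bf X L k (L * w + X.ω * v + c • y) y' = 0) →
        w = 0 ∧ v = 0 ∧ c = 0 := by
    intro w hw v hv c h
    have hc0 : c = 0 := by
      by_contra hc0
      have h1 := h _ (Submodule.smul_mem _ c hy)
      have h2 := hH.add (L * w + X.ω * v) (c • y) (c • y)
      have h3 := hH.add (L * w) (X.ω * v) (c • y)
      rw [h2, h3, hmixL w c, hmixω v hv c, zero_add, zero_add, hyc] at h1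
      have h4 : 0 < Complex.normSq c := Complex.normSq_pos.2 hc0
      have h5 := mul_neg_of_pos_of_neg h4 hcon
      linarith
    rw [hc0, zero_smul, add_zero] at h
    have hv0 : v = 0 := by
      by_contra hv0
      have h1 := h _ (hωmem v (hP v hv).1)
      have h2 := hH.add (L * w) (X.ω * v) (X.ω * v)
      rw [h2, hmix w v hv, zero_add] at h1
      have h3 := hωneg v hv hv0
      linarith
    refine ⟨?_, hv0, hc0⟩
    rw [hv0, mul_zero, add_zero] at h
    have h1 : L ^ k * (L * w) = 0 := by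
      refine pow_mul_eq_zero hL.mem hL.real hk (hLmem w (hN' hw.1)) fun y hy => ?_
      exact (mul_eq_zero.mp (h y hy)).resolve_left (sg_ne p q)
    rw [← mul_assoc, ← pow_succ] at h1
    have h2 : w ∈ P ⊓ W := ⟨⟨hN' hw.1, h1⟩, hw⟩
    rw [hPWd, Submodule.mem_bot] at h2
    exact h2
  let G : (W × P) × ℂ →ₗ[ℂ] X.R :=
    (((ml X L) ∘ₗ W.subtype).coprod ((ml X X.ω) ∘ₗ P.subtype)).coprod
      (LinearMap.toSpanSingleton ℂ X.R y)
  have hG : ∀ z, G z = L * (z.1.1 : X.R) + X.ω * (z.1.2 : X.R) + z.2 • y := fun z => rfl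
  have hzero : ∀ y' : X.R, sg p q * bf X L k 0 y' = 0 := fun y' => hH.zero_left y'
  have hinj : Function.Injective G := by
    rw [injective_iff_map_eq_zero]
    intro z hz
    rw [hG] at hz
    obtain ⟨h1, h2, h3⟩ := key _ z.1.1.2 _ z.1.2.2 z.2 fun y' _ => by rw [hz]; exact hzero y'
    exact Prod.ext (Prod.ext (Subtype.ext h1) (Subtype.ext h2)) h3
  have hdS : finrank ℂ (LinearMap.range G) = finrank ℂ N' + 1 := by
    rw [LinearMap.finrank_range_of_inj hinj, Module.finrank_prod, Module.finrank_prod,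
      Module.finrank_self]
    omega
  have hfin := semi_sub hH (X.H (p, q)) M' (LinearMap.range G) ⊥ hM'
    (by
      rintro _ ⟨z, rfl⟩
      rw [hG]
      exact Submodule.add_mem _ (Submodule.add_mem _ (hLmem _ (hN' z.1.1.2.1))
        (hωmem _ (hP _ z.1.2.2).1)) (Submodule.smul_mem _ _ hy))
    pos
    (by
      rintro _ ⟨z, rfl⟩
      rw [hG]
      set w : X.R := (z.1.1 : X.R) with hw
      set v : X.R := (z.1.2 : X.R) with hv
      have hwW : w ∈ W := z.1.1.2
      have hvP : v ∈ P := z.1.2.2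
      have h1 := hH.add (L * w + X.ω * v) (z.2 • y) (L * w + X.ω * v + z.2 • y)
      have h1' := hH.add (L * w) (X.ω * v) (L * w + X.ω * v + z.2 • y)
      have h2 := hH.add_right (L * w) (L * w + X.ω * v) (z.2 • y)
      have h2' := hH.add_right (L * w) (L * w) (X.ω * v)
      have h3 := hH.add_right (X.ω * v) (L * w + X.ω * v) (z.2 • y)
      have h3' := hH.add_right (X.ω * v) (L * w) (X.ω * v)
      have h4 := hH.symm (X.ω * v) (L * w)
      have h5 := hH.add_right (z.2 • y) (L * w + X.ω * v) (z.2 • y)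
      have h5' := hH.add_right (z.2 • y) (L * w) (X.ω * v)
      have h6 := hH.symm (z.2 • y) (L * w)
      have h7 := hH.symm (z.2 • y) (X.ω * v)
      rw [h1, h1', h2, h2', h3, h3', h4, h5, h5', h6, h7, hmix w v hvP, hmixL w z.2,
        hmixω v hvP z.2, hyc]
      have h8 := hLneg w hwW
      have h9 : sg p q * bf X L k (X.ω * v) (X.ω * v) ≤ 0 := by
        by_cases hv0 : v = 0
        · rw [hv0, mul_zero, hzero]
        · exact (hωneg v hvP hv0).le
      have h10 : Complex.normSq z.2 * (sg p q * bf X L k y y) ≤ 0 :=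
        mul_nonpos_of_nonneg_of_nonpos (Complex.normSq_nonneg _) hcon.le
      linarith)
    (by
      rintro _ ⟨z, rfl⟩ hxy
      obtain ⟨h1, h2, h3⟩ := key _ z.1.1.2 _ z.1.2.2 z.2 fun y' hy' => by
        rw [← hG]
        exact hxy y' hy'
      rw [hG, h1, h2, h3, mul_zero, mul_zero, zero_smul, add_zero, add_zero]
      exact Submodule.zero_mem _)
  rw [hdS, finrank_bot, add_zero] at hfin
  have hA2 : X.A (r + 1) p q = X.h p q - X.A r (p - 1) (q - 1) := rfl
  have hfin' : finrank ℂ M' + (finrank ℂ N' + 1) ≤ X.h p q := hfin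
  rw [hA2] at hA
  rw [← hAN] at hA
  omega

end Pool.Agent.P8H30.OR
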